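import Pool.Agent.Helper57.TA.Uni

/-! Exact entropy calculus: independent real variables. -/

set_option autoImplicit false

namespace Pool.Agent.Helper34.SLC

open Finset Filter Topology Pool.Agent.Helper69.RK Pool.Agent.Helper31.EC

noncomputable section

open Sp QS

variable (S : Sp)

/-- number of values of the independent variable -/
def fN (k : ℕ) : ℕ := ⌊(2 : ℝ) ^ (S.F k).n⌋₊

theorem fN_pos (k : ℕ) : 0 < fN S k := by
  unfold fN
  rw [Nat.floor_pos]
  exact Real.one_le_rpow (by norm_num) (S.F k).pos.le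

theorem fN_le (k : ℕ) : (fN S k : ℝ) ≤ 2 ^ (S.F k).n := Nat.floor_le (by positivity)

theorem le_fN (k : ℕ) : (2 : ℝ) ^ (S.F k).n ≤ 2 * fN S k := by
  have h1 : (2 : ℝ) ^ (S.F k).n < fN S k + 1 := Nat.lt_floor_add_one _
  have h2 : (1 : ℝ) ≤ fN S k := by exact_mod_cast fN_pos S k
  linarith

theorem sum_fib {Ω : Type} [Fintype Ω] (N : ℕ) (hN : 0 < N) (f : Ω → ℝ) :
    ∑ w : Ω × Fin N, f w.1 / N = ∑ ω, f ω := by
  rw [Fintype.sum_prod_type]
  apply Finset.sum_congr rfl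
  intro ω _
  show ∑ _y : Fin N, f ω / N = f ω
  rw [Finset.sum_const, Finset.card_univ, Fintype.card_fin, nsmul_eq_mul]
  have : (N : ℝ) ≠ 0 := Nat.cast_ne_zero.mpr hN.ne'
  field_simp

/-- the product with a uniform variable -/
def ffs (k : ℕ) : FSp where
  Ω := (S.F k).Ω × Fin (fN S k)
  ft := inferInstance
  μ := fun w => (S.F k).μ w.1 / fN S k
  nn := fun _ => div_nonneg ((S.F k).nn _) (Nat.cast_nonneg _)
  ms := (sum_fib (fN S k) (fN_pos S k) (S.F k).μ).trans (S.F k).ms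
  Z := Setoid.comap Prod.fst (S.F k).Z
  n := (S.F k).n
  pos := (S.F k).pos

/-- the product with a uniform variable -/
def fsp : Sp where
  F := ffs S
  lim := S.lim

/-- the projection -/
def fpj : Pj (fsp S) S where
  π := fun _ w => w.1
  law := fun k => by
    funext ω
    rw [push_ind]
    show ∑ w : (S.F k).Ω × Fin (fN S k), e1_ind (w.1 = ω) * ((S.F k).μ w.1 / fN S k) = _
    have h1 : ∀ w : (S.F k).Ω × Fin (fN S k), e1_ind (w.1 = ω) * ((S.F k).μ w.1 / fN S k) =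
        (e1_ind (w.1 = ω) * (S.F k).μ w.1) / fN S k := fun w => by ring
    rw [Finset.sum_congr rfl fun w _ => h1 w,
      sum_fib (fN S k) (fN_pos S k) (fun w => e1_ind (w = ω) * (S.F k).μ w), Finset.sum_eq_single ω]
    · rw [e1_ind_pos rfl, one_mul]
    · intro b _ hb
      rw [e1_ind_neg hb, zero_mul]
    · intro h
      exact absurd (Finset.mem_univ _) h
  hZ := fun _ _ _ _ _ => Iff.rfl
  hn := fun _ => rfl

/-- the uniform variable -/
def fv : TR (fsp S) := ⟨fun k w => ((w.2 : ℕ) : ℝ) / fN S k, fun _ => 1, (fsp S).Sub_const zero_le_one,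
  Eventually.of_forall fun k w _ => by
    beta_reduce
    have h1 : (((w.2 : ℕ) : ℝ)) ≤ fN S k := by exact_mod_cast w.2.isLt.le
    rw [abs_of_nonneg (by positivity)]
    exact div_le_one_of_le₀ h1 (Nat.cast_nonneg _)⟩

theorem ev_fv (k : ℕ) (w : (S.F k).Ω × Fin (fN S k)) : TR.ev (fv S) k w = ((w.2 : ℕ) : ℝ) / fN S k := rfl

/-- different values are in different cells -/
theorem fv_cell (k : ℕ) (w w' : (S.F k).Ω × Fin (fN S k))
    (h : (TR.vec (fun _ : Fin 1 => fv S)).cellv 1 k w = (TR.vec (fun _ : Fin 1 => fv S)).cellv 1 k w') :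
    w.2 = w'.2 := by
  by_contra hne
  have h1 := (TR.vec (fun _ : Fin 1 => fv S)).cellv 1 k
  have h2 : ⌊((w.2 : ℕ) : ℝ) / fN S k / (fsp S).dl 1 k⌋ = ⌊((w'.2 : ℕ) : ℝ) / fN S k / (fsp S).dl 1 k⌋ :=
    congrFun h 0
  have h3 : (fsp S).dl 1 k = (2 ^ (S.F k).n)⁻¹ := by
    unfold Sp.dl
    rw [one_mul, Real.rpow_neg (by norm_num)]
    rfl
  have hN : (0 : ℝ) < fN S k := by exact_mod_cast fN_pos S k
  have h4 : ∀ i : ℕ, (i : ℝ) / fN S k / (fsp S).dl 1 k = i * (2 ^ (S.F k).n / fN S k) := by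
    intro i
    rw [h3]
    field_simp
  rw [h4, h4] at h2
  set c : ℝ := 2 ^ (S.F k).n / fN S k with hc
  have hc1 : 1 ≤ c := by
    rw [hc, le_div_iff₀ hN, one_mul]
    exact fN_le S k
  have key : ∀ i j : ℕ, i < j → ⌊(i : ℝ) * c⌋ ≠ ⌊(j : ℝ) * c⌋ := by
    intro i j hij he
    have e1 := Int.floor_le ((i : ℝ) * c)
    have e2 := Int.lt_floor_add_one ((j : ℝ) * c)
    have e4 := Int.lt_floor_add_one ((i : ℝ) * c)
    have e5 := Int.floor_le ((j : ℝ) * c)
    have e3 : (i : ℝ) + 1 ≤ j := by exact_mod_cast hij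
    have e6 : ((i : ℝ) + 1) * c ≤ j * c := mul_le_mul_of_nonneg_right e3 (by linarith)
    have e7 : (⌊(i : ℝ) * c⌋ : ℝ) = ⌊(j : ℝ) * c⌋ := by rw [he]
    have e8 : ⌊(i : ℝ) * c⌋ + 1 ≤ ⌊(j : ℝ) * c⌋ := by
      rw [Int.le_floor]
      push_cast
      linarith
    omega
  rcases lt_trichotomy (w.2 : ℕ) (w'.2 : ℕ) with hlt | heq | hlt
  · exact key _ _ hlt h2
  · exact hne (Fin.ext heq)
  · exact key _ _ hlt h2.symm

theorem pr_fst {Ω α : Type} [Fintype Ω] (N : ℕ) (hN : 0 < N) (μ : Ω → ℝ) (g : Ω → α) (w : Ω × Fin N) :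
    pr (fun w : Ω × Fin N => μ w.1 / N) (fun w => g w.1) w = pr μ g w.1 := by
  rw [e1_pr_ind, e1_pr_ind, ← sum_fib N hN (fun ω' => e1_ind (g ω' = g w.1) * μ ω')]
  apply Finset.sum_congr rfl
  intro w' _
  ring

theorem pr_snd {Ω α : Type} [Fintype Ω] (N : ℕ) (μ : Ω → ℝ) (g : Ω → α) (w : Ω × Fin N) :
    pr (fun w : Ω × Fin N => μ w.1 / N) (fun w => (w.2, g w.1)) w = pr μ g w.1 / N := by
  rw [e1_pr_ind, e1_pr_ind, Fintype.sum_prod_type, Finset.sum_div]
  apply Finset.sum_congr rfl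
  intro ω _
  rw [Finset.sum_eq_single w.2]
  · have h1 : ((ω, w.2).2, g (ω, w.2).1) = (w.2, g w.1) ↔ g ω = g w.1 := by simp
    rw [ind_congr h1]
    ring
  · intro i _ hi
    rw [e1_ind_neg, zero_mul]
    intro hc
    rw [Prod.mk.injEq] at hc
    exact hi hc.1
  · intro h
    exact absurd (Finset.mem_univ _) h

/-- conditional entropy of the uniform variable -/
theorem CH_snd {Ω α : Type} [Fintype Ω] (N : ℕ) (hN : 0 < N) (μ : Ω → ℝ) (h0 : ∀ ω, 0 ≤ μ ω) (g : Ω → α) :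
    CH (fun w : Ω × Fin N => μ w.1 / N) (fun w => w.2) (fun w => g w.1) = Real.logb 2 N * mass μ := by
  have hN' : (0 : ℝ) < N := by exact_mod_cast hN
  unfold CH mass
  have h1 : ∀ w : Ω × Fin N, μ w.1 / N * (Real.logb 2 (pr (fun w : Ω × Fin N => μ w.1 / N) (fun w => g w.1) w) -
      Real.logb 2 (pr (fun w : Ω × Fin N => μ w.1 / N) (fun w => (w.2, g w.1)) w)) =
      (Real.logb 2 N * μ w.1) / N := by
    intro w
    rw [pr_fst N hN, pr_snd]
    by_cases h2 : μ w.1 = 0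
    · rw [h2]; simp
    · have h3 : 0 < pr μ g w.1 := e1_pr_pos μ g h0 w.1 h2
      rw [Real.logb_div h3.ne' hN'.ne']
      ring
  rw [Finset.sum_congr rfl fun w _ => h1 w, sum_fib N hN (fun ω => Real.logb 2 N * μ ω), ← Finset.mul_sum]

/-- the uniform variable is real over all informations -/
theorem fv_real (x : S.L) : h (dg (QS.mk (fv S)) 1) ((fpj S).map x) = 1 := by
  apply le_antisymm (h_dg_le_one _ _)
  induction x using Sp.cl_ind with | _ A
  rw [QS.dg_mk _ le_rfl, (fpj S).map_cl]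
  show _ ≤ h ((TR.vec (fun _ : Fin 1 => fv S)).dg 1) _
  unfold VV.dg
  rw [io_eq ((TR.vec (fun _ : Fin 1 => fv S)).bdd 1), h_cl]
  set V := TR.vec (fun _ : Fin 1 => fv S) with hV
  have h1 : ∀ k, 1 - 1 / ((fsp S).F k).n ≤ (fsp S).rt ((V.bdd 1).toInf.1) (((fpj S).mapI A).1) k := by
    intro k
    have hn := (S.F k).pos
    have e0 : ((fsp S).F k).n = (S.F k).n := rfl
    unfold rt
    have e1 : ((fsp S).F k).e ((V.bdd 1).toInf.1 k) (((fpj S).mapI A).1 k ⊓ ((fsp S).F k).Z) =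
        CH (fun w : (S.F k).Ω × Fin (fN S k) => (S.F k).μ w.1 / fN S k) (fun w => w.2)
          (fun w => (Quotient.mk (A.1 k) w.1, Quotient.mk (S.F k).Z w.1)) := by
      apply ((fsp S).F k).e_congr
      · intro w w' _ _
        constructor
        · intro hc
          exact fv_cell S k w' w hc
        · intro hc
          show V.cellv 1 k w' = V.cellv 1 k w
          funext i
          show ⌊((w'.2 : ℕ) : ℝ) / fN S k / (fsp S).dl 1 k⌋ = ⌊((w.2 : ℕ) : ℝ) / fN S k / (fsp S).dl 1 k⌋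
          rw [hc]
      · intro w w' _ _
        rw [Prod.mk.injEq]
        exact and_congr (Quotient.eq (r := A.1 k)).symm (Quotient.eq (r := (S.F k).Z)).symm
    rw [e1, CH_snd (fN S k) (fN_pos S k) (S.F k).μ (S.F k).nn
      (fun ω => (Quotient.mk (A.1 k) ω, Quotient.mk (S.F k).Z ω)), (S.F k).ms, mul_one, e0, le_div_iff₀ hn]
    have e2 : Real.logb 2 (2 ^ (S.F k).n) ≤ Real.logb 2 (2 * fN S k) :=
      Real.logb_le_logb_of_le (by norm_num) (by positivity) (le_fN S k)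
    have e3 : (fN S k : ℝ) ≠ 0 := Nat.cast_ne_zero.mpr (fN_pos S k).ne'
    rw [Real.logb_rpow (by norm_num) (by norm_num), Real.logb_mul (by norm_num) e3,
      Real.logb_self_eq_one (by norm_num)] at e2
    rw [sub_mul, one_mul, one_div, inv_mul_cancel₀ hn.ne']
    linarith
  have h2 : Tendsto (fun k => 1 - 1 / ((fsp S).F k).n) UF (𝓝 (1 - 0)) :=
    tendsto_const_nhds.sub ((fsp S).div_n_tendsto 1)
  rw [sub_zero] at h2
  refine (ul_eq h2).symm.le.trans ?_
  exact ul_mono (UB_of_tendsto h2) (UB_rt (V.bdd 1).toInf ((fpj S).mapI A).1) (Eventually.of_forall h1)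

variable {S}

theorem vd_cons {n : ℕ} (a : QS S) (v : Fin n → QS S) (r : ℝ) :
    vd (Fin.cons a v : Fin (n + 1) → QS S) r = dg a r ⊔ vd v r := by
  apply le_antisymm
  · rw [vd_le]
    intro i
    induction i using Fin.cases with
    | zero => rw [Fin.cons_zero]; exact le_sup_left
    | succ i => rw [Fin.cons_succ]; exact (dg_le_vd v r i).trans le_sup_right
  · apply sup_le
    · have h1 := dg_le_vd (Fin.cons a v : Fin (n + 1) → QS S) r 0
      rwa [Fin.cons_zero] at h1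
    · rw [vd_le]
      intro i
      have h1 := dg_le_vd (Fin.cons a v : Fin (n + 1) → QS S) r i.succ
      rwa [Fin.cons_succ] at h1

theorem exists_freshF (S : Sp) : ∀ n : ℕ, ∃ (W : Sp) (p : Pj W S) (v : Fin n → QS W),
    ∀ x : S.L, Rl v (p.map x) := by
  intro n
  induction n with
  | zero =>
    refine ⟨S, Pj.id S, Fin.elim0, fun x => ?_⟩
    unfold Rl vd
    simp [h_zero]
  | succ n ih =>
    obtain ⟨W, p, v, hv⟩ := ih
    refine ⟨fsp W, (fpj W).comp p, Fin.cons (QS.mk (fv W)) fun i => (fpj W).qs (v i), fun x => ?_⟩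
    unfold Rl
    rw [vd_cons, (fpj W).qs_vd, Pj.comp_map, sup_comm, h_chain, (fpj W).h_map, ← (fpj W).map_sup, fv_real,
      show h (vd v 1) (p.map x) = Fintype.card (Fin n) from hv x]
    simp

/-- INDEPENDENT REAL VARIABLES exist -/
theorem exists_fresh (S : Sp) (ι : Type) [Fintype ι] : ∃ (W : Sp) (p : Pj W S) (v : ι → QS W),
    ∀ x : S.L, Rl v (p.map x) := by
  obtain ⟨W, p, v, hv⟩ := exists_freshF S (Fintype.card ι)
  refine ⟨W, p, fun i => v (Fintype.equivFin ι i), fun x => ?_⟩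
  have h1 := hv x
  unfold Rl at h1 ⊢
  have h2 := vd_equiv (Fintype.equivFin ι) v 1
  have h3 : vd (fun i => v (Fintype.equivFin ι i)) 1 = vd v 1 := h2
  rw [h3, h1, Fintype.card_fin]

/-- an independent family does not change conditional entropies -/
theorem fresh_I {W S : Sp} {p : Pj W S} {ι : Type} [Fintype ι] {v : ι → QS W} (hv : ∀ x : S.L, Rl v (p.map x))
    (x y : S.L) : I (vd v 1) (p.map x) (p.map y) = 0 := by
  have h1 := hv y
  have h2 := hv (x ⊔ y)
  unfold Rl at h1 h2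
  rw [I_eq, ← p.map_sup, h1, h2, sub_self]

theorem fresh_h {W S : Sp} {p : Pj W S} {ι : Type} [Fintype ι] {v : ι → QS W} (hv : ∀ x : S.L, Rl v (p.map x))
    (x y : S.L) : h (p.map x) (p.map y ⊔ vd v 1) = h x y := by
  have h1 := fresh_I hv x y
  rw [I_zero_iff_h'] at h1
  rw [sup_comm, h1, p.h_map]

end

end Pool.Agent.Helper34.SLC
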