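import Pool.Agent.Helper34.SLC.Pol
import Pool.Agent.Helper95.RIG.St

/-! Exact entropy calculus: SLICING. Digits of a coordinate of a point with a polynomial leaf can be moved into the
label: `st_slice`. -/

set_option autoImplicit false

namespace Pool.Agent.Helper34.SLC

open Finset Filter Topology Pool.Agent.Helper69.RK Pool.Agent.Helper31.EC Pool.Agent.Helper57.TA
open Pool.Agent.Helper95.RIG

noncomputable section

open Sp QS

variable {S : Sp}

theorem dl_le_one (S : Sp) {r : ℝ} (hr : 0 ≤ r) (k : ℕ) : S.dl r k ≤ 1 := by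
  have := S.dl_anti hr k
  rwa [S.dl_zero] at this

/-- constant scales -/
def cscal (S : Sp) (u : ℝ) (h0 : 0 ≤ u) (h1 : u ≤ 1) : Scl S where
  f := fun k _ => S.dl u k
  lo := fun k _ => S.dl_anti h1 k
  hi := fun k _ => dl_le_one S h0 k
  bdd := (few_of_card (α := fun _ => ℝ) _ (fun k => {S.dl u k}) (fun _ => 1) (S.Sub_const zero_le_one)
    (Eventually.of_forall fun k ω _ => Finset.mem_singleton_self _)
    (Eventually.of_forall fun k => by rw [Finset.card_singleton, Nat.cast_one])).1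
  few := (few_of_card (α := fun _ => ℝ) _ (fun k => {S.dl u k}) (fun _ => 1) (S.Sub_const zero_le_one)
    (Eventually.of_forall fun k ω _ => Finset.mem_singleton_self _)
    (Eventually.of_forall fun k => by rw [Finset.card_singleton, Nat.cast_one])).2

theorem cscal_qs {u : ℝ} (h0 : 0 ≤ u) (h1 : u ≤ 1) : (cscal S u h0 h1).qs = sc S u := by
  unfold Scl.qs sc
  congr 1
  apply Subtype.ext
  funext k ω
  show S.dl u k = S.dl (max u 0) k
  rw [max_eq_left h0]

theorem cscal_rho {u : ℝ} (h0 : 0 ≤ u) (h1 : u ≤ 1) : QS.mk (cscal S u h0 h1).rho = sc S (1 - u) := by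
  unfold sc
  congr 1
  apply Subtype.ext
  funext k ω
  show S.dl 1 k / S.dl u k = S.dl (max (1 - u) 0) k
  rw [max_eq_left (by linarith), div_eq_iff (S.dl_pos u k).ne', ← S.dl_add, sub_add_cancel]

/-- smaller scale -/
def shr (κ : Scl S) (s : ℝ) (h0 : 0 ≤ s) : Scl S where
  f := fun k ω => max (κ.f k ω * S.dl s k) (S.dl 1 k)
  lo := fun k ω => le_max_right _ _
  hi := fun k ω => by
    apply max_le _ (dl_le_one S zero_le_one k)
    exact mul_le_one₀ (κ.hi k ω) (S.dl_pos s k).le (dl_le_one S h0 k)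
  bdd := Bdd.comp (α := fun _ => ℝ) (β := fun _ => ℝ) κ.bdd (fun k x => max (x * S.dl s k) (S.dl 1 k))
  few := by
    apply le_antisymm _ bot_le
    rw [← κ.few]
    exact io_comp_le (α := fun _ => ℝ) (β := fun _ => ℝ) κ.bdd (fun k x => max (x * S.dl s k) (S.dl 1 k))

theorem shr_qs (κ : Scl S) {s : ℝ} (h0 : 0 ≤ s) : (shr κ s h0).qs = κ.qs * sc S s := by
  unfold Scl.qs sc
  rw [← map_mul, mk_eq]
  refine ⟨fun _ _ => True, fun _ => 1, Typ_true, S.Sub_const zero_le_one, Eventually.of_forall fun k ω _ _ => ?_⟩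
  rw [TR.ev_mul, Scl.ev_tr, Scl.ev_tr, ev_scT h0, one_mul]
  show |max (κ.f k ω * S.dl s k) (S.dl 1 k) - κ.f k ω * S.dl s k| ≤ S.dl 1 k
  have hd := S.dl_pos 1 k
  have hp : 0 < κ.f k ω * S.dl s k := mul_pos (κ.pos k ω) (S.dl_pos s k)
  rcases le_total (κ.f k ω * S.dl s k) (S.dl 1 k) with h | h
  · rw [max_eq_right h, abs_of_nonneg (by linarith)]
    linarith
  · rw [max_eq_left h, sub_self, abs_zero]
    exact hd.le

/-- products with `2 ^ (-(1 - s) n)` have at most `s` digits -/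
theorem h_sc_le (x : QS S) {s : ℝ} (h0 : 0 ≤ s) (h1 : s ≤ 1) (A : S.L) : h (dg (sc S (1 - s) * x) 1) A ≤ s := by
  have e1 : dg (sc S (1 - s) * x) (1 - s) = ⊥ := by
    have e2 : sc S (1 - s) * x - 0 ∈ Id S (1 - s) := by
      rw [sub_zero]
      exact Ideal.mul_mem_right _ _ (sc_mem (by linarith))
    rw [dg_eq_of_sub_mem e2 le_rfl (by linarith)]
    apply le_antisymm _ bot_le
    exact (Kn S (1 - s) (by linarith) ⊥).zero_mem
  have e3 := h_dg_dg (sc S (1 - s) * x) (show 1 - s ≤ 1 by linarith)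
  rw [e1] at e3
  refine (h_anti bot_le).trans (e3.trans ?_)
  linarith

/-- leaves over an information on an extension, which adds little to the knowledge about the space -/
theorem leaf_desc {ι : Type} {A : S.L} {Q : ι → QS S} (hl : ∀ ε : ℝ, 0 < ε → ∃ (T : Sp) (q : Pj T S) (B : T.L),
      q.map A ≤ B ∧ (∀ y : S.L, I B (q.map y) (q.map A) ≤ ε) ∧ ALeaf B (fun j => q.qs (Q j))) : ALeaf A Q := by
  intro ε hε
  obtain ⟨T, q, B, h1, h2, h3⟩ := hl (ε / 2) (by positivity)
  obtain ⟨W, p, A', g1, g2, g3⟩ := h3 (ε / 2) (by positivity)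
  refine ⟨W, p.comp q, A', ?_, fun y => ?_, ?_⟩
  · rw [Pj.comp_map]
    exact (p.map_mono h1).trans g1
  · rw [Pj.comp_map, Pj.comp_map]
    have e1 : I A' (p.map (q.map y)) (p.map (q.map A)) ≤ I (p.map B ⊔ A') (p.map (q.map y)) (p.map (q.map A)) :=
      I_mono_left ((le_sup_right (a := p.map B)).trans le_sup_left)
    rw [I_chain] at e1
    have e2 : I (p.map B) (p.map (q.map y)) (p.map (q.map A)) ≤ ε / 2 := by
      rw [p.I_map]
      exact h2 y
    have e3 : I A' (p.map (q.map y)) (p.map B ⊔ p.map (q.map A)) ≤ ε / 2 := by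
      rw [sup_eq_left.mpr (p.map_mono h1)]
      exact g2 _
    linarith
  · have e4 : (fun j => (p.comp q).qs (Q j)) = fun j => p.qs (q.qs (Q j)) := funext fun j => Pj.comp_qs p q (Q j)
    rw [e4]
    exact g3

/-- the last step: the coordinate is `κ V` with `V` of first order in the parameters, up to a small error -/
theorem slice_step {n : ℕ} {A : S.L} {y : Fin (n + 1) → QS S} (hy : Rl y A) (κ : Scl S) {b : Fin (n + 1) → QS S}
    (hb : ∀ i, dg (b i) 1 ≤ A) (hbu : IsUnit (∑ i, b i ^ 2)) {σ : QS S} (hσ : dg σ 1 ≤ A) (hσn : IsNilpotent σ)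
    {ψ : MvPolynomial (Fin (n + 1)) (QS S)} (hψ : ψ ∈ PK A) {V : QS S}
    (hV : V = ∑ i, b i * y i + σ * MvPolynomial.eval y ψ) : ALeaf (A ⊔ dg (κ.qs * V) 1) y := by
  apply leaf_desc
  intro ε hε
  obtain ⟨W, q, m, hm⟩ := exists_fresh S (Fin n)
  set A3 : W.L := q.map A ⊔ vd m 1 with hA3
  have hqA : q.map A ≤ A3 := le_sup_left
  have hmA : ∀ i, dg (m i) 1 ≤ A3 := fun i => (dg_le_vd m 1 i).trans le_sup_right
  refine ⟨W, q, q.map (A ⊔ dg (κ.qs * V) 1) ⊔ vd m 1, le_sup_left, fun y' => ?_, ?_⟩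
  · rw [I_chain, I_zero_of_le_left le_rfl, zero_add, sup_idem]
    rw [fresh_I hm]
    exact hε.le
  set B : W.L := q.map (A ⊔ dg (κ.qs * V) 1) ⊔ vd m 1 with hB
  have hAB : A3 ≤ B := sup_le_sup_right (q.map_mono le_sup_left) _
  -- coordinates
  set z : QS W := q.qs (y 0) with hz
  set T : Fin n → QS W := fun i => q.qs (y i.succ) - m i * z with hT
  set g : QS W := q.qs (b 0) + ∑ i, m i * q.qs (b i.succ) with hg
  set U : QS W := q.qs V with hU
  have hqb : ∀ i, dg (q.qs (b i)) 1 ≤ q.map A := by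
    intro i
    rw [q.qs_dg]
    exact q.map_mono (hb i)
  have hgu : IsUnit g := by
    apply isUnit_comb (A := q.map A) (hm A) hqb
    have e1 : ∑ i, q.qs (b i) ^ 2 = q.qs (∑ i, b i ^ 2) := by
      rw [map_sum]
      exact Finset.sum_congr rfl fun i _ => (map_pow _ _ _).symm
    rw [e1]
    exact hbu.map q.qs
  have hgA : dg g 1 ≤ A3 := by
    apply (Kn W 1 le_rfl A3).add_mem ((hqb 0).trans hqA)
    apply (Kn W 1 le_rfl A3).sum_mem
    intro i _
    exact (Kn W 1 le_rfl A3).mul_mem (hmA i) ((hqb _).trans hqA)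
  set M : Fin (n + 1) → MvPolynomial (Fin (n + 1)) (QS W) := Fin.cons (MvPolynomial.X 0)
    (fun i : Fin n => MvPolynomial.X i.succ + MvPolynomial.C (m i) * MvPolynomial.X 0) with hM
  have hMK : ∀ i, M i ∈ PK A3 := by
    intro i
    induction i using Fin.cases with
    | zero => exact X_mem _ _
    | succ i => exact (PK A3).add_mem (X_mem _ _) ((PK A3).mul_mem (C_mem (hmA i)) (X_mem _ _))
  have hMe : ∀ i, MvPolynomial.eval (Fin.cons z T : Fin (n + 1) → QS W) (M i) = q.qs (y i) := by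
    intro i
    induction i using Fin.cases with
    | zero => rw [hM, Fin.cons_zero, MvPolynomial.eval_X, Fin.cons_zero]
    | succ i =>
      rw [hM, Fin.cons_succ, map_add, map_mul, MvPolynomial.eval_X, MvPolynomial.eval_X, MvPolynomial.eval_C,
        Fin.cons_zero, Fin.cons_succ, hT]
      ring
  set L : MvPolynomial (Fin n) (QS W) := ∑ i : Fin n, MvPolynomial.C (q.qs (b i.succ)) * MvPolynomial.X i with hL
  have hLK : L ∈ PK A3 := by
    apply (PK A3).sum_mem
    intro i _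
    exact (PK A3).mul_mem (C_mem ((hqb _).trans hqA)) (X_mem _ _)
  have hLe : MvPolynomial.eval T L = ∑ i, q.qs (b i.succ) * T i := by
    rw [hL, map_sum]
    apply Finset.sum_congr rfl
    intro i _
    rw [map_mul, MvPolynomial.eval_C, MvPolynomial.eval_X]
  set ψ' := MvPolynomial.bind₁ M (MvPolynomial.map q.qs ψ) with hψ'
  have hψK : ψ' ∈ PK A3 := bind_PK hMK (PK_mono hqA (map_PK q hψ))
  have hψe : MvPolynomial.eval (Fin.cons z T : Fin (n + 1) → QS W) ψ' = q.qs (MvPolynomial.eval y ψ) := by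
    rw [hψ', eval_bind, qs_eval]
    congr 1
    congr 1
    funext i
    exact hMe i
  have hUe : U = g * z + MvPolynomial.eval T L + q.qs σ *
      MvPolynomial.eval (Fin.cons z T : Fin (n + 1) → QS W) ψ' := by
    rw [hψe, hLe, hU, hV, map_add, map_mul, map_sum, Fin.sum_univ_succ, hg, add_mul, Finset.sum_mul]
    have e1 : ∑ i : Fin n, q.qs (b i.succ * y i.succ) =
        ∑ i : Fin n, m i * q.qs (b i.succ) * z + ∑ i : Fin n, q.qs (b i.succ) * T i := by
      rw [← Finset.sum_add_distrib]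
      apply Finset.sum_congr rfl
      intro i _
      rw [map_mul, hT]
      ring
    rw [e1, map_mul]
    ring
  obtain ⟨G, hG, hGz⟩ := exists_inv hgu hgA (by
    rw [q.qs_dg]
    exact (q.map_mono hσ).trans hqA : dg (q.qs σ) 1 ≤ A3) (hσn.map q.qs) hLK hψK hUe
  -- the new parameters are real
  have hzA : dg z 1 ≤ vd (Fin.cons U T : Fin (n + 1) → QS W) 1 ⊔ A3 := by
    rw [hGz]
    exact eval_mem hG _ le_sup_right fun i => (dg_le_vd _ 1 i).trans le_sup_left
  have hyA : q.map (vd y 1) ≤ vd (Fin.cons U T : Fin (n + 1) → QS W) 1 ⊔ A3 := by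
    rw [← q.qs_vd, vd_le]
    intro i
    induction i using Fin.cases with
    | zero => exact hzA
    | succ i =>
      have e1 : q.qs (y i.succ) = T i + m i * z := by rw [hT]; ring
      rw [e1]
      apply (Kn W 1 le_rfl _).add_mem
      · have := dg_le_vd (Fin.cons U T : Fin (n + 1) → QS W) 1 i.succ
        rw [Fin.cons_succ] at this
        exact this.trans le_sup_left
      · exact (Kn W 1 le_rfl _).mul_mem ((hmA i).trans le_sup_right) hzA
  have hreal : Rl (Sum.elim (fun _ : Unit => U) T) A3 := by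
    apply Rl.of_ge
    have e1 : h (q.map (vd y 1)) A3 = h (vd y 1) A := fresh_h hm _ _
    have e2 : h (q.map (vd y 1)) A3 ≤ h (vd (Fin.cons U T : Fin (n + 1) → QS W) 1) A3 := by
      rw [← h_sup_right_of_le (A := vd (Fin.cons U T : Fin (n + 1) → QS W) 1) (le_refl A3)]
      exact h_mono hyA
    have e3 : vd (Sum.elim (fun _ : Unit => U) T) 1 = vd (Fin.cons U T : Fin (n + 1) → QS W) 1 := by
      rw [vd_elim, vd_cons]
      congr 1
      unfold vd
      simp
    have e4 : h (vd y 1) A = Fintype.card (Fin (n + 1)) := hy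
    rw [e3]
    rw [e1, e4] at e2
    refine le_trans (le_of_eq ?_) e2
    simp
    ring
  have hleaf := leaf_prod (κ.pull q) (fun _ : Unit => U) T A3 hreal
  have hBe : A3 ⊔ vd (fun _ : Unit => (κ.pull q).qs * U) 1 = B := by
    have e1 : vd (fun _ : Unit => (κ.pull q).qs * U) 1 = q.map (dg (κ.qs * V) 1) := by
      rw [κ.pull_qs, hU, ← map_mul, ← q.qs_dg]
      unfold vd
      simp
    rw [e1, hA3, hB, q.map_sup, sup_right_comm]
  rw [hBe] at hleaf
  apply hleaf.sum
  have hzP : z = MvPolynomial.eval (Sum.elim (fun _ : Unit => U) T)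
      (MvPolynomial.rename (Fin.cases (Sum.inl ()) Sum.inr : Fin (n + 1) → Unit ⊕ Fin n) G) := by
    rw [MvPolynomial.eval_rename, hGz]
    congr 1
    congr 1
    funext i
    induction i using Fin.cases with
    | zero => rfl
    | succ i => rfl
  intro i
  induction i using Fin.cases with
  | zero => exact ⟨_, PK_mono hAB (rename_mem _ hG), hzP⟩
  | succ i =>
    refine ⟨MvPolynomial.X (Sum.inr i) + MvPolynomial.C (m i) *
      MvPolynomial.rename (Fin.cases (Sum.inl ()) Sum.inr : Fin (n + 1) → Unit ⊕ Fin n) G, ?_, ?_⟩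
    · apply PK_mono hAB
      exact (PK A3).add_mem (X_mem _ _) ((PK A3).mul_mem (C_mem (hmA i)) (rename_mem _ hG))
    · rw [map_add, map_mul, MvPolynomial.eval_C, MvPolynomial.eval_X, ← hzP]
      show q.qs (y i.succ) = T i + m i * z
      rw [hT]
      ring

/-- slicing for real parameters -/
theorem slice_core {n : ℕ} {A : S.L} {Y : Fin (n + 1) → QS S} (hY : Rl Y A)
    {φ : MvPolynomial (Fin (n + 1)) (QS S)} (hφ : φ ∈ PK A) : ALeaf (A ⊔ dg (MvPolynomial.eval Y φ) 1) Y := by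
  obtain ⟨κ, φ', T0, hφ', hφe, hT0, hTu⟩ := exists_cont hφ
  have hgrad := isUnit_grad hY hφ' hT0 hTu
  set x := MvPolynomial.eval Y φ with hx
  have hxe : x = φ.coeff 0 + κ.qs * MvPolynomial.eval Y φ' := by
    rw [hx]
    conv_lhs => rw [hφe]
    rw [map_add, map_mul, MvPolynomial.eval_C, MvPolynomial.eval_C]
  apply ALeaf.limit
  intro ε hε
  -- the size of the patches
  obtain ⟨s, hs0, hs1, hsε⟩ : ∃ s : ℝ, 0 < s ∧ s ≤ 1 ∧ (n + 1 : ℝ) * s ≤ ε := by
    refine ⟨min 1 (ε / (n + 1)), by positivity, min_le_left _ _, ?_⟩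
    calc (n + 1 : ℝ) * min 1 (ε / (n + 1)) ≤ (n + 1) * (ε / (n + 1)) :=
          mul_le_mul_of_nonneg_left (min_le_right _ _) (by positivity)
      _ = ε := by field_simp
  set κs := cscal S (1 - s) (by linarith) (by linarith) with hκs
  have hκq : κs.qs = sc S (1 - s) := cscal_qs _ _
  have hκr : QS.mk κs.rho = sc S s := by
    rw [hκs, cscal_rho]
    congr 1
    ring
  set P := vd (fun i => κs.qs * Y i) 1 with hP
  refine ⟨A ⊔ dg x 1 ⊔ P, le_sup_left, ?_, ?_⟩
  · have e1 : h (A ⊔ dg x 1 ⊔ P) (A ⊔ dg x 1) = h P (A ⊔ dg x 1) := by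
      rw [sup_comm (A ⊔ dg x 1) P]
      exact h_sup_right_of_le le_rfl
    rw [e1]
    refine (h_finsup_le univ _ _).trans (le_trans ?_ hsε)
    calc ∑ i, h (dg (κs.qs * Y i) 1) (A ⊔ dg x 1) ≤ ∑ _i : Fin (n + 1), s := by
          apply Finset.sum_le_sum
          intro i _
          rw [hκq]
          exact h_sc_le _ hs0.le hs1 _
      _ = (n + 1 : ℝ) * s := by simp
  -- patches
  obtain ⟨W, p, Y0, Y1, h1, h2, h3⟩ := exists_rev κs Y (Fin.elim0 : Fin 0 → QS S) A (by
    unfold Rl at hY ⊢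
    rw [vd_elim]
    have e1 : vd (Fin.elim0 : Fin 0 → QS S) 1 = ⊥ := by unfold vd; simp
    rw [e1, sup_bot_eq, hY]
    simp)
  set A2 : W.L := p.map (A ⊔ P) with hA2
  have hY1 : Rl Y1 A2 := by
    unfold Rl at h3 ⊢
    rw [vd_elim] at h3
    have e1 : vd (fun j : Fin 0 => p.qs ((Fin.elim0 : Fin 0 → QS S) j)) 1 = ⊥ := by unfold vd; simp
    rw [e1, sup_bot_eq] at h3
    rw [h3]
    simp
  have hpA : p.map A ≤ A2 := p.map_mono le_sup_left
  have hY0 : ∀ i, dg (Y0 i) 1 ≤ A2 := fun i => (h1 i).trans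
    (p.map_mono ((dg_le_vd (fun i => κs.qs * Y i) 1 i).trans le_sup_right))
  have hσA : ∀ C : W.L, dg (sc W s) 1 ≤ C := fun C => by rw [dg_sc]; exact bot_le
  have hYe : ∀ i, p.qs (Y i) = Y0 i + sc W s * Y1 i := by
    intro i
    rw [h2 i, hκr, Pj_qs_sc]
  apply leaf_desc
  intro ε' hε'
  refine ⟨W, p, p.map (A ⊔ dg x 1 ⊔ P), le_rfl, fun y' => ?_, ?_⟩
  · rw [I_zero_of_le_left le_rfl]
    exact hε'.le
  have hBA : p.map (A ⊔ dg x 1 ⊔ P) = A2 ⊔ dg (p.qs x) 1 := by
    rw [hA2, p.qs_dg, ← p.map_sup, sup_right_comm]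
  rw [hBA]
  -- Taylor formula
  set R := MvPolynomial.map p.qs φ' with hR
  have hRK : R ∈ PK A2 := PK_mono hpA (map_PK p hφ')
  obtain ⟨_, ψ, hψ, htay⟩ := taylor (a := Y0) (σ := sc W s) hY0 (hσA A2) hRK
  set b : Fin (n + 1) → QS W := fun i => MvPolynomial.eval Y0 (MvPolynomial.pderiv i R) with hb
  set V : QS W := ∑ i, b i * Y1 i + sc W s * MvPolynomial.eval Y1 ψ with hV
  set κ' := shr (κ.pull p) s hs0.le with hκ'
  have hκ'q : κ'.qs = p.qs κ.qs * sc W s := by rw [hκ', shr_qs, κ.pull_qs]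
  have hpx : p.qs x = (p.qs (φ.coeff 0) + p.qs κ.qs * MvPolynomial.eval Y0 R) + κ'.qs * V := by
    have e1 : p.qs (MvPolynomial.eval Y φ') = MvPolynomial.eval Y0 R + sc W s * V := by
      rw [qs_eval]
      have e2 : (fun i => p.qs (Y i)) = fun i => Y0 i + sc W s * Y1 i := funext hYe
      rw [e2]
      exact htay Y1
    rw [hxe, map_add, map_mul, e1, hκ'q]
    ring
  have hdx : A2 ⊔ dg (p.qs x) 1 = A2 ⊔ dg (κ'.qs * V) 1 := by
    have hc : dg (p.qs (φ.coeff 0) + p.qs κ.qs * MvPolynomial.eval Y0 R) 1 ≤ A2 := by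
      apply (Kn W 1 le_rfl A2).add_mem
      · show dg _ 1 ≤ _
        rw [p.qs_dg]
        exact (p.map_mono (hφ 0)).trans hpA
      · apply (Kn W 1 le_rfl A2).mul_mem
        · show dg _ 1 ≤ _
          rw [p.qs_dg]
          exact (p.map_mono (κ.dg_qs A)).trans hpA
        · exact eval_mem hRK Y0 le_rfl hY0
    apply le_antisymm
    · apply sup_le le_sup_left
      rw [hpx]
      exact (Kn W 1 le_rfl _).add_mem (hc.trans le_sup_left) (le_sup_right (a := A2))
    · apply sup_le le_sup_left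
      have e1 : κ'.qs * V = p.qs x - (p.qs (φ.coeff 0) + p.qs κ.qs * MvPolynomial.eval Y0 R) := by
        rw [hpx]; ring
      rw [e1]
      exact (Kn W 1 le_rfl _).sub_mem (le_sup_right (a := A2)) (hc.trans le_sup_left)
  rw [hdx]
  have hbu : IsUnit (∑ i, b i ^ 2) := by
    have e1 : IsUnit (p.qs (∑ i, MvPolynomial.eval Y (MvPolynomial.pderiv i φ') ^ 2)) := hgrad.map p.qs
    have e2 : ∑ i, b i ^ 2 - p.qs (∑ i, MvPolynomial.eval Y (MvPolynomial.pderiv i φ') ^ 2) ∈ Id W s := by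
      rw [map_sum, ← Finset.sum_sub_distrib]
      apply Ideal.sum_mem
      intro i _
      have e3 : b i - p.qs (MvPolynomial.eval Y (MvPolynomial.pderiv i φ')) ∈ Id W s := by
        rw [qs_eval, ← MvPolynomial.pderiv_map]
        apply eval_sub_mem
        intro j
        rw [hYe j]
        have e4 : Y0 j - (Y0 j + sc W s * Y1 j) = -(sc W s * Y1 j) := by ring
        rw [e4]
        exact (Id W s).neg_mem (Ideal.mul_mem_right _ _ (sc_mem hs0.le))
      rw [map_pow, sq_sub_sq]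
      exact Ideal.mul_mem_left _ _ e3
    obtain ⟨w, hw⟩ := e1.exists_left_inv
    have e5 : ∑ i, b i ^ 2 = p.qs (∑ i, MvPolynomial.eval Y (MvPolynomial.pderiv i φ') ^ 2) *
        (1 + w * (∑ i, b i ^ 2 - p.qs (∑ i, MvPolynomial.eval Y (MvPolynomial.pderiv i φ') ^ 2))) := by
      linear_combination (-(∑ i, b i ^ 2 - p.qs (∑ i, MvPolynomial.eval Y (MvPolynomial.pderiv i φ') ^ 2))) * hw
    rw [e5]
    exact e1.mul (isUnit_one_add hs0 (Ideal.mul_mem_left _ _ e2))
  have hstep := slice_step hY1 κ' (fun i => eval_mem (pd_PK hRK i) Y0 le_rfl hY0) hbu (hσA A2)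
    (isNilpotent_of_mem hs0 (sc_mem hs0.le)) hψ (V := V) hV
  apply hstep.sum
  intro i
  refine ⟨MvPolynomial.C (Y0 i) + MvPolynomial.C (sc W s) * MvPolynomial.X i, ?_, ?_⟩
  · apply (PK _).add_mem (C_mem ((hY0 i).trans le_sup_left))
    exact (PK _).mul_mem (C_mem (hσA _)) (X_mem _ _)
  · rw [map_add, map_mul, MvPolynomial.eval_C, MvPolynomial.eval_C, MvPolynomial.eval_X]
    exact hYe i

/-- SLICING (PIECE A) -/
theorem st_slice : ST_SLICE := by
  intro S m A Q j hQ
  obtain ⟨n, Y, Φ, hY, hΦ, hQe⟩ := hQ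
  rcases n with _ | n
  · apply ALeaf.of_PLeaf
    apply PLeaf.known
    intro i
    rw [hQe i]
    exact (eval_mem (hΦ i) Y le_rfl fun l => l.elim0).trans le_sup_left
  · have h1 := slice_core hY (hΦ j)
    rw [← hQe j] at h1
    exact h1.sum fun i => ⟨Φ i, PK_mono le_sup_left (hΦ i), hQe i⟩

end

end Pool.Agent.Helper34.SLC
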