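import Pool.Agent.Helper95.RIG.Scal

/-! Exact entropy calculus: variables with few values, random scales, entropies of products with random scales. -/

set_option autoImplicit false

namespace Pool.Agent.Helper34.SLC

open Finset Filter Topology Pool.Agent.Helper69.RK Pool.Agent.Helper31.EC Pool.Agent.Helper57.TA

noncomputable section

open Sp QS

variable {S : Sp}

open Classical in
theorem nvf_le_card {Ω α γ : Type} [Fintype Ω] (μ : Ω → ℝ) (X : Ω → α) (g : Ω → γ) (ω : Ω) (T : Finset α)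
    (h : ∀ ω, μ ω ≠ 0 → X ω ∈ T) : nvf μ X g ω ≤ T.card := by
  unfold nvf
  apply Finset.card_le_card
  intro q hq
  obtain ⟨ω', hω', rfl⟩ := e3_mem_image hq
  rw [Finset.mem_filter] at hω'
  exact h ω' hω'.2.1

/-- variables with subexponentially many values carry no information -/
theorem few_of_card {α : ℕ → Type} (X : ∀ k, (S.F k).Ω → α k) (T : ∀ k, Finset (α k)) (K : ℕ → ℝ) (hK : S.Sub K)
    (h1 : ∀ᶠ k in UF, ∀ ω, (S.F k).μ ω ≠ 0 → X k ω ∈ T k) (h2 : ∀ᶠ k in UF, ((T k).card : ℝ) ≤ K k) :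
    Bdd X ∧ io X = ⊥ := by
  classical
  have hb : Bdd X := by
    apply Bdd_of_card X T 1 h1
    filter_upwards [h2, hK.eventually_le one_pos] with k a b
    linarith
  refine ⟨hb, ?_⟩
  apply le_antisymm _ bot_le
  rw [← h_le_zero_iff, h_bot, H_io hb]
  have h3 : Tendsto (fun k => Real.logb 2 (K k + 2) / (S.F k).n) UF (𝓝 0) := hK.2
  refine le_trans ?_ (ul_eq h3).le
  apply ul_mono (UB_rt hb.toInf _) (UB_of_tendsto h3)
  filter_upwards [h1, h2, hK.1] with k a b c
  have hn := (S.F k).pos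
  unfold rt
  apply div_le_div_of_nonneg_right _ hn.le
  have e0 : (S.F k).e (Setoid.ker (X k)) (S.tr k ⊓ (S.F k).Z) =
      CH (S.F k).μ (Quotient.mk (Setoid.ker (X k))) (Quotient.mk (S.F k).Z) := by
    apply (S.F k).e_congr
    · intro ω ω' _ _
      exact (Quotient.eq (r := Setoid.ker (X k))).symm
    · intro ω ω' _ _
      constructor
      · intro h
        exact Quotient.sound h.2
      · intro h
        exact ⟨trivial, Quotient.exact h⟩
  have e1 := st_E3.1 (S.F k).Ω _ _ (S.F k).μ (Quotient.mk (Setoid.ker (X k))) (Quotient.mk (S.F k).Z)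
    (fun _ => K k + 2) (S.F k).nn (fun ω hω => by
      have e2 : nv (S.F k) (Setoid.ker (X k)) ω ≤ (T k).card := by
        rw [nv_ker]
        exact nvf_le_card _ _ _ _ _ a
      have e3 : (nv (S.F k) (Setoid.ker (X k)) ω : ℝ) ≤ (T k).card := by exact_mod_cast e2
      exact e3.trans (by linarith))
  have e4 : ∑ ω, (S.F k).μ ω * Real.logb 2 (K k + 2) = Real.logb 2 (K k + 2) := by
    rw [← Finset.sum_mul]
    have : ∑ ω, (S.F k).μ ω = 1 := (S.F k).ms
    rw [this, one_mul]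
  rw [e4] at e1
  exact e0.le.trans e1

/-- the depth is subexponential -/
theorem Sub_n (S : Sp) : S.Sub (fun k => (S.F k).n + 2) := by
  refine ⟨Eventually.of_forall fun k => by have := (S.F k).pos; linarith, ?_⟩
  have h1 : Tendsto (fun x : ℝ => Real.log x / x) atTop (𝓝 0) := Real.isLittleO_log_id_atTop.tendsto_div_nhds_zero
  have h2 : Tendsto (fun k => Real.log (S.F k).n / (S.F k).n) UF (𝓝 0) := h1.comp S.lim
  have h3 : Tendsto (fun k => 1 / (S.F k).n + (Real.log (S.F k).n / (S.F k).n) * (1 / Real.log 2)) UF (𝓝 0) := by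
    have := (S.div_n_tendsto 1).add (h2.mul_const (1 / Real.log 2))
    rwa [zero_mul, add_zero] at this
  refine squeeze_zero' ?_ ?_ h3
  · refine Eventually.of_forall fun k => ?_
    have hn := (S.F k).pos
    exact div_nonneg (Real.logb_nonneg (by norm_num) (by linarith)) hn.le
  · filter_upwards [S.lim.eventually (eventually_ge_atTop 4)] with k hk
    have hn := (S.F k).pos
    have e1 : Real.logb 2 ((S.F k).n + 2 + 2) ≤ Real.logb 2 (2 * (S.F k).n) :=
      Real.logb_le_logb_of_le (by norm_num) (by linarith) (by linarith)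
    rw [Real.logb_mul (by norm_num) hn.ne', Real.logb_self_eq_one (by norm_num)] at e1
    calc Real.logb 2 ((S.F k).n + 2 + 2) / (S.F k).n ≤ (1 + Real.logb 2 (S.F k).n) / (S.F k).n :=
          div_le_div_of_nonneg_right e1 hn.le
      _ = _ := by
          unfold Real.logb
          ring

/-- a function of a variable -/
theorem dg_le_io_fun {α : ℕ → Type} {X : ∀ k, (S.F k).Ω → α k} (hX : Bdd X) (f : TR S)
    (h : ∀ᶠ k in UF, ∀ ω ω', (S.F k).μ ω ≠ 0 → (S.F k).μ ω' ≠ 0 → X k ω = X k ω' → TR.ev f k ω = TR.ev f k ω')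
    (r : ℝ) : TR.dg f r ≤ io X := by
  apply VV.dg_le_io _ r hX (fun _ _ => True) Typ_true (fun _ => 0) (S.Sub_const le_rfl)
  filter_upwards [h] with k hk ω ω' a b _ _ _ e i
  have h1 : TR.ev f k ω = TR.ev f k ω' := hk ω ω' a b e
  show |TR.ev f k ω - TR.ev f k ω'| ≤ _
  rw [h1, sub_self, abs_zero, zero_mul]

/-! ### events -/

theorem h_le_event (E : ∀ k, (S.F k).Ω → Prop) (x y : S.L) {a : ℝ}
    (h1 : ∀ hE : 0 < ul (S.pr E), h (restL E hE x) (restL E hE y) ≤ a)
    (h2 : ∀ hE : 0 < ul (S.pr fun k ω => ¬ E k ω), h (restL _ hE x) (restL _ hE y) ≤ 0) :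
    h x y ≤ ul (S.pr E) * a := by
  have h0 : 0 ≤ ul (S.pr E) := const_le_ul (UB_pr E) (Eventually.of_forall fun k => pr_nonneg E k)
  rcases Pool.Agent.Helper95.RIG.typ_or_pos E with ht | hp
  · rw [ul_pr_typ E ht, one_mul, ← h_restL_typ E ht]
    exact h1 _
  · rcases h0.lt_or_eq with hE | hE
    · rw [Pool.Agent.Helper95.RIG.h_split E hE hp]
      have e1 := mul_le_mul_of_nonneg_left (h1 hE) hE.le
      have e2 : 0 ≤ 1 - ul (S.pr E) := by
        rw [← ul_pr_compl]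
        exact hp.le
      have e3 := mul_le_mul_of_nonneg_left (h2 hp) e2
      linarith
    · have e1 : ul (S.pr fun k ω => ¬ E k ω) = 1 := by rw [ul_pr_compl, ← hE, sub_zero]
      have e2 : Typ (fun k ω => ¬ E k ω) := by
        rw [Typ_iff]
        have := ul_tendsto (UB_pr (S := S) fun k ω => ¬ E k ω)
        rwa [e1] at this
      rw [← hE, zero_mul, ← h_restL_typ _ e2]
      exact h2 _

theorem h_le_event' (E : ∀ k, (S.F k).Ω → Prop) (x y : S.L) {a : ℝ}
    (h1 : ∀ hE : 0 < ul (S.pr E), h (restL E hE x) (restL E hE y) ≤ 0)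
    (h2 : ∀ hE : 0 < ul (S.pr fun k ω => ¬ E k ω), h (restL _ hE x) (restL _ hE y) ≤ a) :
    h x y ≤ (1 - ul (S.pr E)) * a := by
  have h0 : 0 ≤ ul (S.pr E) := const_le_ul (UB_pr E) (Eventually.of_forall fun k => pr_nonneg E k)
  rcases Pool.Agent.Helper95.RIG.typ_or_pos E with ht | hp
  · rw [ul_pr_typ E ht, sub_self, zero_mul, ← h_restL_typ E ht]
    exact h1 _
  · have e2 : 0 ≤ 1 - ul (S.pr E) := by
      rw [← ul_pr_compl]
      exact hp.le
    rcases h0.lt_or_eq with hE | hE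
    · rw [Pool.Agent.Helper95.RIG.h_split E hE hp]
      have e1 := mul_le_mul_of_nonneg_left (h1 hE) hE.le
      have e3 := mul_le_mul_of_nonneg_left (h2 hp) e2
      linarith
    · have e1 : ul (S.pr fun k ω => ¬ E k ω) = 1 := by rw [ul_pr_compl, ← hE, sub_zero]
      have e2 : Typ (fun k ω => ¬ E k ω) := by
        rw [Typ_iff]
        have := ul_tendsto (UB_pr (S := S) fun k ω => ¬ E k ω)
        rwa [e1] at this
      rw [← hE, sub_zero, one_mul, ← h_restL_typ _ e2]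
      exact h2 _

/-- on an event of positive probability, the support of the restricted space is eventually in the event -/
theorem rest_supp_ev (E : ∀ k, (S.F k).Ω → Prop) (hE : 0 < ul (S.pr E)) :
    ∀ᶠ k in UF, ∀ ω, ((S.rest E).F k).μ ω ≠ 0 → (S.F k).μ ω ≠ 0 ∧ E k ω := by
  have h1 := (ul_tendsto (UB_pr E)).eventually (lt_mem_nhds hE)
  filter_upwards [h1] with k hk ω hω
  have h2 := (S.F k).rest_supp (E k) ω hω
  exact ⟨h2.1, h2.2 hk.ne'⟩

/-! ### random scales -/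

/-- random scale with few values -/
structure Scl (S : Sp) where
  f : ∀ k, (S.F k).Ω → ℝ
  lo : ∀ k ω, S.dl 1 k ≤ f k ω
  hi : ∀ k ω, f k ω ≤ 1
  bdd : Bdd (α := fun _ => ℝ) f
  few : io (α := fun _ => ℝ) f = ⊥

namespace Scl

variable (κ : Scl S)

theorem pos (k : ℕ) (ω : (S.F k).Ω) : 0 < κ.f k ω := lt_of_lt_of_le (S.dl_pos 1 k) (κ.lo k ω)

/-- as a tame function -/
def tr : TR S := ⟨κ.f, fun _ => 1, S.Sub_const zero_le_one, Eventually.of_forall fun k ω _ => by
  beta_reduce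
  rw [abs_of_pos (κ.pos k ω)]
  exact κ.hi k ω⟩

theorem ev_tr (k : ℕ) (ω : (S.F k).Ω) : TR.ev κ.tr k ω = κ.f k ω := rfl

/-- as a function to full precision -/
def qs : QS S := QS.mk κ.tr

/-- the complementary scale `2 ^ (-n) / κ` -/
def rho : TR S := ⟨fun k ω => S.dl 1 k / κ.f k ω, fun _ => 1, S.Sub_const zero_le_one,
  Eventually.of_forall fun k ω _ => by
    beta_reduce
    rw [abs_of_pos (div_pos (S.dl_pos 1 k) (κ.pos k ω)), div_le_one (κ.pos k ω)]
    exact κ.lo k ω⟩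

theorem ev_rho (k : ℕ) (ω : (S.F k).Ω) : TR.ev κ.rho k ω = S.dl 1 k / κ.f k ω := rfl

theorem dg_qs (A : S.L) : dg κ.qs 1 ≤ A := by
  refine le_trans ?_ (bot_le (a := A))
  rw [← κ.few]
  unfold qs
  rw [dg_mk _ le_rfl]
  exact dg_le_io_fun κ.bdd κ.tr (Eventually.of_forall fun k ω ω' _ _ e => e) 1

theorem dg_rho (A : S.L) : dg (QS.mk κ.rho) 1 ≤ A := by
  refine le_trans ?_ (bot_le (a := A))
  rw [← κ.few, dg_mk _ le_rfl]
  refine dg_le_io_fun κ.bdd κ.rho (Eventually.of_forall fun k ω ω' _ _ e => ?_) 1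
  rw [κ.ev_rho, κ.ev_rho, e]

/-- the event that the scale is at least `2 ^ (-t n)` -/
def E (t : ℝ) : ∀ k, (S.F k).Ω → Prop := fun k ω => S.dl t k ≤ κ.f k ω

/-- pullback -/
def pull {T : Sp} (p : Pj T S) : Scl T where
  f := fun k ω => κ.f k (p.π k ω)
  lo := fun k ω => by
    have h1 : T.dl 1 k = S.dl 1 k := by unfold Sp.dl; rw [p.hn k]
    rw [h1]
    exact κ.lo k _
  hi := fun k ω => κ.hi k _
  bdd := (p.bdd_iff (α := fun _ => ℝ) κ.f).mpr κ.bdd
  few := by
    rw [← p.map_io (α := fun _ => ℝ) κ.f, κ.few, p.map_bot]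

theorem pull_qs {T : Sp} (p : Pj T S) : (κ.pull p).qs = p.qs κ.qs := rfl

/-- new digits of a product -/
theorem up (u : QS S) (B : S.L) {t δ : ℝ} (hδ : 0 ≤ δ) (ht : t + δ ≤ 1) :
    h (dg (κ.qs * u) (t + δ)) (dg (κ.qs * u) t ⊔ B) ≤ ul (S.pr (κ.E (t + δ))) * δ := by
  apply h_le_event
  · intro hE
    rw [restL_sup, ← QS.rest_dg _ hE, ← QS.rest_dg _ hE]
    refine (h_anti le_sup_left).trans ?_
    have h1 := h_dg_dg (QS.rest _ hE (κ.qs * u)) (show t ≤ t + δ by linarith)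
    rwa [add_sub_cancel_left] at h1
  · intro hE
    rw [← QS.rest_dg _ hE]
    have h1 : QS.rest _ hE (κ.qs * u) ∈ Id (S.rest fun k ω => ¬ κ.E (t + δ) k ω) (t + δ) := by
      obtain ⟨u, rfl⟩ := QS.mk_surj u
      unfold qs
      rw [← map_mul, QS.rest_mk, mem_Id_iff, min_eq_left ht]
      obtain ⟨K, hK, hu⟩ := u.2
      refine ⟨fun _ _ => True, K, Typ_true, hK, ?_⟩
      filter_upwards [rest_supp_ev _ hE, hu, hK.1] with k a b c ω hω _
      obtain ⟨a1, a2⟩ := a ω hω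
      have b1 : |TR.ev u k ω| ≤ K k := b ω a1
      have a3 : κ.f k ω < S.dl (t + δ) k := not_le.mp a2
      rw [TR.ev_zero, sub_zero]
      show |κ.f k ω * TR.ev u k ω| ≤ K k * S.dl (t + δ) k
      rw [abs_mul, abs_of_pos (κ.pos k ω), mul_comm]
      exact mul_le_mul b1 a3.le (κ.pos k ω).le c
    rw [← sub_zero (QS.rest _ hE (κ.qs * u))] at h1
    rw [dg_eq_of_sub_mem h1 le_rfl ht, h_zero]
    exact (Kn _ (t + δ) ht _).zero_mem

/-- digits of a variable from the product with a large scale -/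
theorem dg_le_prod (v : QS S) {r : ℝ} (hr : r ≤ 1)
    (hE : ∀ᶠ k in UF, ∀ ω, (S.F k).μ ω ≠ 0 → S.dl (1 - r) k ≤ κ.f k ω) : dg v r ≤ dg (κ.qs * v) 1 := by
  obtain ⟨v, rfl⟩ := QS.mk_surj v
  unfold qs
  rw [← map_mul, dg_mk _ hr, dg_mk _ le_rfl]
  set y : S.VV 1 := TR.vec (fun _ : Fin 1 => κ.tr * v) with hy
  have h1 : TR.dg v r ≤ io (fun k ω => (y.cellv 1 k ω, κ.f k ω)) := by
    apply VV.dg_le_io _ r ((y.bdd 1).pair (β := fun _ => ℝ) κ.bdd) (fun _ _ => True) Typ_true (fun _ => 1)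
      (S.Sub_const zero_le_one)
    filter_upwards [hE] with k hk ω ω' a b _ _ _ e i
    rw [Prod.mk.injEq] at e
    have e1 : |κ.f k ω * TR.ev v k ω - κ.f k ω' * TR.ev v k ω'| ≤ S.dl 1 k := y.cellv_close 1 k ω ω' e.1 0
    rw [← e.2, ← mul_sub, abs_mul, abs_of_pos (κ.pos k ω)] at e1
    show |TR.ev v k ω - TR.ev v k ω'| ≤ 1 * S.dl r k
    have e2 := hk ω a
    have e3 : S.dl 1 k = S.dl (1 - r) k * S.dl r k := by
      rw [← S.dl_add]; congr 1; ring
    have e4 : S.dl (1 - r) k * |TR.ev v k ω - TR.ev v k ω'| ≤ S.dl (1 - r) k * S.dl r k := by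
      rw [← e3]
      exact (mul_le_mul_of_nonneg_right e2 (abs_nonneg _)).trans e1
    rw [one_mul]
    exact le_of_mul_le_mul_left e4 (S.dl_pos _ _)
  rw [io_pair (y.bdd 1) (β := fun _ => ℝ) κ.bdd, κ.few, sup_bot_eq] at h1
  exact h1

/-- restriction -/
def rest (E : ∀ k, (S.F k).Ω → Prop) (hE : 0 < ul (S.pr E)) : Scl (S.rest E) where
  f := κ.f
  lo := κ.lo
  hi := κ.hi
  bdd := rest_VB E κ.bdd
  few := by
    rw [← restL_io E hE (α := fun _ => ℝ) κ.bdd, κ.few, restL_bot]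

theorem rest_qs (E : ∀ k, (S.F k).Ω → Prop) (hE : 0 < ul (S.pr E)) : (κ.rest E hE).qs = QS.rest E hE κ.qs := rfl

/-- remaining digits of a factor -/
theorem dn (v : QS S) (C : S.L) {r δ : ℝ} (hδ : 0 ≤ δ) (hr : r ≤ 1) :
    h (dg v r) (dg v (r - δ) ⊔ (dg (κ.qs * v) 1 ⊔ C)) ≤ (1 - ul (S.pr (κ.E (1 - r)))) * δ := by
  apply h_le_event'
  · intro hE
    have h1 : restL (κ.E (1 - r)) hE (dg v r) ≤ restL (κ.E (1 - r)) hE (dg (κ.qs * v) 1) := by
      rw [← QS.rest_dg _ hE, ← QS.rest_dg _ hE, map_mul, ← κ.rest_qs]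
      apply (κ.rest _ hE).dg_le_prod _ hr
      filter_upwards [rest_supp_ev _ hE] with k hk ω hω
      exact (hk ω hω).2
    rw [h_zero]
    exact h1.trans (restL_mono _ hE (le_sup_left.trans le_sup_right))
  · intro hE
    rw [restL_sup, ← QS.rest_dg _ hE, ← QS.rest_dg _ hE]
    refine (h_anti le_sup_left).trans ?_
    have h1 := h_dg_dg (QS.rest _ hE v) (show r - δ ≤ r by linarith)
    rwa [sub_sub_cancel] at h1

/-- PRODUCTS WITH RANDOM SCALES: the digits of `κ u` are at most as many as the digits of `v` which are known from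
`κ v` -/
theorem prod (u v : QS S) (B C : S.L) : h (dg (κ.qs * u) 1) B + h (dg v 1) (dg (κ.qs * v) 1 ⊔ C) ≤ 1 := by
  apply le_of_forall_pos_le_add
  intro ε hε
  obtain ⟨M, hM⟩ := exists_nat_gt (1 / ε)
  have hM0 : (0 : ℝ) < M := lt_trans (by positivity) hM
  have hMn : 0 < M := by exact_mod_cast hM0
  set Q : ℝ → ℝ := fun t => ul (S.pr (κ.E t)) with hQ
  have h1 : ∀ n : ℕ, n ≤ M → h (dg (κ.qs * u) ((n : ℝ) / M)) B ≤ ∑ i ∈ range n, Q (((i + 1 : ℕ) : ℝ) / M) * (1 / M) := by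
    intro n
    induction n with
    | zero =>
      intro _
      rw [Nat.cast_zero, zero_div, dg_nonpos _ le_rfl, h_zero bot_le, Finset.range_zero, Finset.sum_empty]
    | succ n ih =>
      intro hn
      have e1 := ih (by omega)
      have e2 : ((n : ℝ) + 1) / M ≤ 1 := by
        rw [div_le_one hM0]
        exact_mod_cast hn
      have e3 := κ.up u B (t := (n : ℝ) / M) (δ := 1 / M) (by positivity) (by
        rw [← add_div]
        exact e2)
      have e4 := h_triangle (dg (κ.qs * u) ((n : ℝ) / M + 1 / M)) (dg (κ.qs * u) ((n : ℝ) / M)) B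
      rw [Finset.sum_range_succ]
      have e5 : ((n + 1 : ℕ) : ℝ) / M = (n : ℝ) / M + 1 / M := by push_cast; ring
      rw [e5]
      linarith
  have h2 : ∀ n : ℕ, n ≤ M → h (dg v ((n : ℝ) / M)) (dg (κ.qs * v) 1 ⊔ C) ≤
      ∑ i ∈ range n, (1 - Q (((M - 1 - i : ℕ) : ℝ) / M)) * (1 / M) := by
    intro n
    induction n with
    | zero =>
      intro _
      rw [Nat.cast_zero, zero_div, dg_nonpos _ le_rfl, h_zero bot_le, Finset.range_zero, Finset.sum_empty]
    | succ n ih =>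
      intro hn
      have e1 := ih (by omega)
      have e2 : ((n : ℝ) + 1) / M ≤ 1 := by
        rw [div_le_one hM0]
        exact_mod_cast hn
      have e3 := κ.dn v C (r := ((n : ℝ) + 1) / M) (δ := 1 / M) (by positivity) e2
      have e4 := h_triangle (dg v (((n : ℝ) + 1) / M)) (dg v ((n : ℝ) / M)) (dg (κ.qs * v) 1 ⊔ C)
      rw [Finset.sum_range_succ]
      have e5 : ((n : ℝ) + 1) / M - 1 / M = (n : ℝ) / M := by ring
      have e6 : 1 - ((n : ℝ) + 1) / M = ((M - 1 - n : ℕ) : ℝ) / M := by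
        rw [Nat.cast_sub (by omega), Nat.cast_sub (by omega)]
        field_simp
        push_cast
        ring
      rw [e5, e6] at e3
      have e7 : ((n + 1 : ℕ) : ℝ) / M = ((n : ℝ) + 1) / M := by push_cast; ring
      rw [e7]
      have e8 : Q (((M - 1 - n : ℕ) : ℝ) / M) = ul (S.pr (κ.E (((M - 1 - n : ℕ) : ℝ) / M))) := rfl
      rw [e8]
      linarith
  have h3 := h1 M le_rfl
  have h4 := h2 M le_rfl
  rw [div_self hM0.ne'] at h3 h4
  have h5 : ∑ i ∈ range M, (1 - Q (((M - 1 - i : ℕ) : ℝ) / M)) * (1 / M) =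
      ∑ i ∈ range M, (1 - Q ((i : ℝ) / M)) * (1 / M) :=
    Finset.sum_range_reflect (fun i => (1 - Q ((i : ℝ) / M)) * (1 / M)) M
  rw [h5] at h4
  have h6 : ∑ i ∈ range M, Q (((i + 1 : ℕ) : ℝ) / M) * (1 / M) + ∑ i ∈ range M, (1 - Q ((i : ℝ) / M)) * (1 / M) =
      1 + (Q 1 - Q 0) * (1 / M) := by
    rw [← Finset.sum_add_distrib]
    have e1 : ∀ i ∈ range M, Q (((i + 1 : ℕ) : ℝ) / M) * (1 / M) + (1 - Q ((i : ℝ) / M)) * (1 / M) =
        1 / M + (Q (((i + 1 : ℕ) : ℝ) / M) - Q ((i : ℝ) / M)) * (1 / M) := fun i _ => by ring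
    rw [Finset.sum_congr rfl e1, Finset.sum_add_distrib, ← Finset.sum_mul,
      Finset.sum_range_sub (fun i : ℕ => Q ((i : ℝ) / M)) M, Finset.sum_const, card_range, nsmul_eq_mul,
      mul_one_div, div_self hM0.ne', Nat.cast_zero, zero_div]
  have h7 : Q 1 ≤ 1 := ul_le_const (UB_pr _) (Eventually.of_forall fun k => pr_le_one _ k)
  have h8 : 0 ≤ Q 0 := const_le_ul (UB_pr _) (Eventually.of_forall fun k => pr_nonneg _ k)
  have h9 : (Q 1 - Q 0) * (1 / M) ≤ 1 / M := by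
    have : (Q 1 - Q 0) * (1 / M) ≤ 1 * (1 / M) := mul_le_mul_of_nonneg_right (by linarith) (by positivity)
    linarith
  have h10 : 1 / (M : ℝ) ≤ ε := by
    rw [div_le_iff₀ hM0]
    rw [div_lt_iff₀ hε] at hM
    linarith
  linarith

/-- families: a product with a random scale has at most as many digits as the product with a real family -/
theorem prods {ι : Type} [Fintype ι] (u v : ι → QS S) (B C : S.L) (hv : Rl v C) :
    h (vd (fun i => κ.qs * u i) 1) B ≤ h (vd (fun i => κ.qs * v i) 1) C := by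
  have h1 : h (vd (fun i => κ.qs * u i) 1) B ≤ ∑ i, h (dg (κ.qs * u i) 1) B := h_finsup_le univ _ B
  have h2 : (Fintype.card ι : ℝ) ≤ h (vd v 1) (vd (fun i => κ.qs * v i) 1 ⊔ C) + h (vd (fun i => κ.qs * v i) 1) C := by
    rw [← hv]
    exact h_triangle _ _ _
  have h3 : h (vd v 1) (vd (fun i => κ.qs * v i) 1 ⊔ C) ≤
      ∑ i, h (dg (v i) 1) (vd (fun i => κ.qs * v i) 1 ⊔ C) := h_finsup_le univ _ _
  have h4 : ∑ i, h (dg (v i) 1) (vd (fun i => κ.qs * v i) 1 ⊔ C) ≤
      ∑ i, h (dg (v i) 1) (dg (κ.qs * v i) 1 ⊔ C) := Finset.sum_le_sum fun i _ =>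
    h_anti (sup_le_sup_right (dg_le_vd (fun i => κ.qs * v i) 1 i) _)
  have h5 : ∑ i, (h (dg (κ.qs * u i) 1) B + h (dg (v i) 1) (dg (κ.qs * v i) 1 ⊔ C)) ≤ ∑ _i : ι, (1 : ℝ) :=
    Finset.sum_le_sum fun i _ => κ.prod (u i) (v i) B C
  rw [Finset.sum_add_distrib, Finset.sum_const, card_univ, nsmul_eq_mul, mul_one] at h5
  linarith

end Scl

end

end Pool.Agent.Helper34.SLC
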