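import Pool.Agent.Helper34.SLC.Fresh
import Pool.Agent.Helper34.SLC.Few

/-! Exact entropy calculus: revealing the digits of a product with a random scale. -/

set_option autoImplicit false

namespace Pool.Agent.Helper34.SLC

open Finset Filter Topology Pool.Agent.Helper69.RK Pool.Agent.Helper31.EC Pool.Agent.Helper57.TA
open Pool.Agent.Helper95.RIG

noncomputable section

open Sp QS

variable {S : Sp}

theorem vd_elim {ι ι' : Type} [Fintype ι] [Fintype ι'] (x : ι → QS S) (y : ι' → QS S) (r : ℝ) :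
    vd (Sum.elim x y) r = vd x r ⊔ vd y r := by
  apply le_antisymm
  · rw [vd_le]
    rintro (i | i)
    · exact (dg_le_vd x r i).trans le_sup_left
    · exact (dg_le_vd y r i).trans le_sup_right
  · apply sup_le
    · rw [vd_le]
      intro i
      exact dg_le_vd (Sum.elim x y) r (Sum.inl i)
    · rw [vd_le]
      intro i
      exact dg_le_vd (Sum.elim x y) r (Sum.inr i)

theorem Scl.rho_mul (κ : Scl S) : QS.mk κ.rho * κ.qs = 0 := by
  have h1 : QS.mk κ.rho * κ.qs = sc S 1 := by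
    unfold Scl.qs sc
    rw [← map_mul]
    congr 1
    apply Subtype.ext
    funext k ω
    show S.dl 1 k / κ.f k ω * κ.f k ω = S.dl (max 1 0) k
    rw [div_mul_cancel₀ _ (κ.pos k ω).ne', max_eq_left zero_le_one]
  rw [h1, ← mem_Id_one]
  exact sc_mem zero_le_one

/-- literal rounding to full precision -/
def rnd (u : TR S) : TR S := ⟨fun k ω => S.dl 1 k * ⌊TR.ev u k ω / S.dl 1 k⌋, by
  obtain ⟨K, hK, h⟩ := u.2
  refine ⟨_, hK.add (S.Sub_const zero_le_one), ?_⟩
  filter_upwards [h] with k a ω hω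
  have h1 : |TR.ev u k ω| ≤ K k := a ω hω
  have hd := S.dl_pos 1 k
  have hd1 : S.dl 1 k ≤ 1 := by
    have := S.dl_anti zero_le_one k
    rwa [S.dl_zero] at this
  have h2 := Int.floor_le (TR.ev u k ω / S.dl 1 k)
  have h3 := Int.lt_floor_add_one (TR.ev u k ω / S.dl 1 k)
  rw [le_div_iff₀ hd] at h2
  rw [div_lt_iff₀ hd] at h3
  rw [abs_le] at h1 ⊢
  constructor <;> nlinarith [h1.1, h1.2]⟩

theorem ev_rnd (u : TR S) (k : ℕ) (ω : (S.F k).Ω) : TR.ev (rnd u) k ω = S.dl 1 k * ⌊TR.ev u k ω / S.dl 1 k⌋ := rfl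

theorem mk_rnd (u : TR S) : QS.mk (rnd u) = QS.mk u := by
  rw [mk_eq]
  refine ⟨fun _ _ => True, fun _ => 1, Typ_true, S.Sub_const zero_le_one, Eventually.of_forall fun k ω _ _ => ?_⟩
  have hd := S.dl_pos 1 k
  have h2 := Int.floor_le (TR.ev u k ω / S.dl 1 k)
  have h3 := Int.lt_floor_add_one (TR.ev u k ω / S.dl 1 k)
  rw [le_div_iff₀ hd] at h2
  rw [div_lt_iff₀ hd] at h3
  rw [ev_rnd, abs_le]
  constructor <;> nlinarith

/-- the rounding is a function of the cell number -/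
theorem rnd_cell (u : TR S) (k : ℕ) (ω ω' : (S.F k).Ω)
    (h : (TR.vec (fun _ : Fin 1 => u)).cellv 1 k ω = (TR.vec (fun _ : Fin 1 => u)).cellv 1 k ω') :
    TR.ev (rnd u) k ω = TR.ev (rnd u) k ω' := by
  have h1 : ⌊TR.ev u k ω / S.dl 1 k⌋ = ⌊TR.ev u k ω' / S.dl 1 k⌋ := congrFun h 0
  rw [ev_rnd, ev_rnd, h1]

theorem dg_mk_cell (u : TR S) : dg (QS.mk u) 1 = io ((TR.vec (fun _ : Fin 1 => u)).cellv 1) := by
  rw [dg_mk _ le_rfl]
  rfl

/-- fractional part at the complementary scale -/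
def frt (κ : Scl S) (r : TR S) : TR S := ⟨fun k ω => Int.fract (TR.ev r k ω / TR.ev κ.rho k ω), fun _ => 1,
  S.Sub_const zero_le_one, Eventually.of_forall fun k ω _ => by
    beta_reduce
    rw [abs_of_nonneg (Int.fract_nonneg _)]
    exact (Int.fract_lt_one _).le⟩

theorem ev_frt (κ : Scl S) (r : TR S) (k : ℕ) (ω : (S.F k).Ω) :
    TR.ev (frt κ r) k ω = Int.fract (TR.ev r k ω / TR.ev κ.rho k ω) := rfl

/-- the fractional part is known -/
theorem dg_frt (κ : Scl S) (u : TR S) : dg (QS.mk (frt κ (rnd u))) 1 ≤ dg (QS.mk u) 1 := by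
  rw [dg_mk _ le_rfl, dg_mk_cell]
  have h1 : TR.dg (frt κ (rnd u)) 1 ≤ io (fun k ω => ((TR.vec (fun _ : Fin 1 => u)).cellv 1 k ω, κ.f k ω)) := by
    apply dg_le_io_fun (((TR.vec (fun _ : Fin 1 => u)).bdd 1).pair (β := fun _ => ℝ) κ.bdd)
    refine Eventually.of_forall fun k ω ω' _ _ e => ?_
    rw [Prod.mk.injEq] at e
    rw [ev_frt, ev_frt, κ.ev_rho, κ.ev_rho, rnd_cell u k ω ω' e.1, e.2]
  rw [io_pair ((TR.vec (fun _ : Fin 1 => u)).bdd 1) (β := fun _ => ℝ) κ.bdd, κ.few, sup_bot_eq] at h1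
  exact h1

/-- the integer part at the complementary scale is known to the product -/
theorem dg_int (κ : Scl S) (r : TR S) : dg (QS.mk (r - κ.rho * frt κ r)) 1 ≤ dg (κ.qs * QS.mk r) 1 := by
  unfold Scl.qs
  rw [← map_mul, dg_mk_cell, dg_mk _ le_rfl]
  set y : S.VV 1 := TR.vec (fun _ : Fin 1 => κ.tr * r) with hy
  have h1 : TR.dg (r - κ.rho * frt κ r) 1 ≤ io (fun k ω => (y.cellv 1 k ω, κ.f k ω)) := by
    apply dg_le_io_fun ((y.bdd 1).pair (β := fun _ => ℝ) κ.bdd)
    refine Eventually.of_forall fun k ω ω' _ _ e => ?_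
    rw [Prod.mk.injEq] at e
    have key : ∀ ω, TR.ev (r - κ.rho * frt κ r) k ω = S.dl 1 k / κ.f k ω * ⌊κ.f k ω * TR.ev r k ω / S.dl 1 k⌋ := by
      intro ω
      rw [TR.ev_sub, TR.ev_mul, ev_frt, κ.ev_rho]
      have hd := S.dl_pos 1 k
      have hk := κ.pos k ω
      have e1 : TR.ev r k ω / (S.dl 1 k / κ.f k ω) = κ.f k ω * TR.ev r k ω / S.dl 1 k := by
        field_simp
      rw [e1]
      have e2 := Int.self_sub_floor (κ.f k ω * TR.ev r k ω / S.dl 1 k)
      rw [← e2]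
      field_simp
      ring
    rw [key, key, ← e.2]
    have e3 : ⌊κ.f k ω * TR.ev r k ω / S.dl 1 k⌋ = ⌊κ.f k ω' * TR.ev r k ω' / S.dl 1 k⌋ := congrFun e.1 0
    rw [e3, ← e.2]
  rw [io_pair (y.bdd 1) (β := fun _ => ℝ) κ.bdd, κ.few, sup_bot_eq] at h1
  exact h1

/-- REVEAL the digits of the products `κ U i`: what remains is real -/
theorem exists_rev {ι ι' : Type} [Fintype ι] [Fintype ι'] (κ : Scl S) (U : ι → QS S) (T : ι' → QS S) (B : S.L)
    (hUT : Rl (Sum.elim U T) B) :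
    ∃ (W : Sp) (p : Pj W S) (U0 U1 : ι → QS W),
      (∀ i, dg (U0 i) 1 ≤ p.map (dg (κ.qs * U i) 1)) ∧
      (∀ i, p.qs (U i) = U0 i + p.qs (QS.mk κ.rho) * U1 i) ∧
      Rl (Sum.elim U1 (fun j => p.qs (T j))) (p.map (B ⊔ vd (fun i => κ.qs * U i) 1)) := by
  obtain ⟨W, p, V, hV⟩ := exists_fresh S ι
  set u : ι → TR S := fun i => rep (U i) with hu
  have huU : ∀ i, QS.mk (u i) = U i := fun i => mk_rep (U i)
  set r : ι → TR S := fun i => rnd (u i) with hr
  have hrU : ∀ i, QS.mk (r i) = U i := fun i => (mk_rnd (u i)).trans (huU i)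
  set d : ι → QS S := fun i => QS.mk (frt κ (r i)) with hd
  have hdU : ∀ i, dg (d i) 1 ≤ dg (U i) 1 := by
    intro i
    rw [← huU i]
    exact dg_frt κ (u i)
  set U0 : ι → QS W := fun i => p.qs (QS.mk (r i - κ.rho * frt κ (r i))) with hU0
  set U1 : ι → QS W := fun i => p.qs (d i) + p.qs κ.qs * V i with hU1
  have a1 : ∀ i, dg (U0 i) 1 ≤ p.map (dg (κ.qs * U i) 1) := by
    intro i
    rw [← hrU i]
    show dg (p.qs _) 1 ≤ _
    rw [p.qs_dg]
    exact p.map_mono (dg_int κ (r i))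
  have a2 : ∀ i, p.qs (U i) = U0 i + p.qs (QS.mk κ.rho) * U1 i := by
    intro i
    have e1 : U0 i = p.qs (U i) - p.qs (QS.mk κ.rho) * p.qs (d i) := by
      rw [hU0]
      beta_reduce
      rw [map_sub, map_sub, map_mul, map_mul, hrU i]
    have e2 : p.qs (QS.mk κ.rho) * p.qs κ.qs = 0 := by
      rw [← map_mul, κ.rho_mul, map_zero]
    rw [e1, hU1]
    beta_reduce
    linear_combination (-V i) * e2
  refine ⟨W, p, U0, U1, a1, a2, ?_⟩
  apply Rl.of_ge
  set X := vd (Sum.elim U1 fun j => p.qs (T j)) 1 with hX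
  have hXe : X = vd U1 1 ⊔ p.map (vd T 1) := by rw [hX, vd_elim, p.qs_vd]
  -- the digits of `U`
  have b1 : p.map (vd U 1) ≤ vd U1 1 ⊔ p.map (vd (fun i => κ.qs * U i) 1) := by
    rw [← p.qs_vd, vd_le]
    intro i
    rw [a2 i]
    apply (Kn W 1 le_rfl _).add_mem
    · exact (a1 i).trans ((p.map_mono (dg_le_vd (fun i => κ.qs * U i) 1 i)).trans le_sup_right)
    · apply (Kn W 1 le_rfl _).mul_mem
      · show dg _ 1 ≤ _
        rw [p.qs_dg]
        exact (p.map_mono (κ.dg_rho ⊥)).trans (by rw [p.map_bot]; exact bot_le)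
      · exact (dg_le_vd U1 1 i).trans le_sup_left
  have b2 : vd (fun i => (κ.pull p).qs * V i) 1 ≤ vd U1 1 ⊔ p.map (vd U 1) := by
    rw [vd_le]
    intro i
    have e1 : (κ.pull p).qs * V i = U1 i - p.qs (d i) := by
      rw [κ.pull_qs, hU1]
      ring
    rw [e1]
    apply (Kn W 1 le_rfl _).sub_mem
    · exact (dg_le_vd U1 1 i).trans le_sup_left
    · show dg _ 1 ≤ _
      rw [p.qs_dg]
      exact (p.map_mono ((hdU i).trans (dg_le_vd U 1 i))).trans le_sup_right
  set KU := vd (fun i => κ.qs * U i) 1 with hKU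
  have c1 := h_chain (p.map KU) X (p.map B)
  have c2 : p.map B ⊔ p.map KU = p.map KU ⊔ p.map B := sup_comm _ _
  have c3 : h (p.map KU) (p.map B) ≤
      h (vd (fun i => (κ.pull p).qs * V i) 1) (p.map (vd (Sum.elim U T) 1) ⊔ p.map B) := by
    have e1 := (κ.pull p).prods (fun i => p.qs (U i)) V (p.map B) (p.map (vd (Sum.elim U T) 1 ⊔ B)) (hV _)
    have e2 : (fun i => (κ.pull p).qs * p.qs (U i)) = fun i => p.qs (κ.qs * U i) := by
      funext i
      rw [κ.pull_qs, map_mul]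
    rw [e2, p.qs_vd, p.map_sup] at e1
    exact e1
  have c4 : h (p.map (vd (Sum.elim U T) 1) ⊔ vd (fun i => (κ.pull p).qs * V i) 1) (p.map B) ≤
      h (p.map KU ⊔ X) (p.map B) := by
    apply h_mono
    have e1 : p.map (vd U 1) ≤ p.map KU ⊔ X := by
      refine b1.trans (sup_le ?_ le_sup_left)
      rw [hXe]
      exact le_sup_left.trans le_sup_right
    apply sup_le
    · rw [vd_elim, p.map_sup]
      apply sup_le e1
      rw [hXe]
      exact le_sup_right.trans le_sup_right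
    · refine b2.trans (sup_le ?_ e1)
      rw [hXe]
      exact le_sup_left.trans le_sup_right
  rw [h_chain] at c4
  have c5 : h (p.map (vd (Sum.elim U T) 1)) (p.map B) = Fintype.card (ι ⊕ ι') := by
    rw [p.h_map]
    exact hUT
  rw [p.map_sup, c2]
  linarith

/-- real families are leaves -/
theorem PLeaf.of_rl {ι : Type} [Fintype ι] {A : S.L} {Y : ι → QS S} (hY : Rl Y A) : PLeaf A Y := by
  classical
  set e := Fintype.equivFin ι with he
  refine ⟨Fintype.card ι, fun i => Y (e.symm i), fun i => MvPolynomial.X (e i), ?_, fun i => X_mem A _, fun i => ?_⟩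
  · unfold Rl at hY ⊢
    have h1 : vd (fun i => Y (e.symm i)) 1 = vd Y 1 := vd_equiv e.symm Y 1
    rw [h1, hY, Fintype.card_fin]
  · rw [MvPolynomial.eval_X, Equiv.symm_apply_apply]

/-- revealing the digits of the products of some of the coordinates of a real family with a random scale -/
theorem leaf_prod {ι ι' : Type} [Fintype ι] [Fintype ι'] (κ : Scl S) (U : ι → QS S) (T : ι' → QS S) (B : S.L)
    (hUT : Rl (Sum.elim U T) B) : ALeaf (B ⊔ vd (fun i => κ.qs * U i) 1) (Sum.elim U T) := by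
  intro ε hε
  obtain ⟨W, p, U0, U1, h1, h2, h3⟩ := exists_rev κ U T B hUT
  refine ⟨W, p, p.map (B ⊔ vd (fun i => κ.qs * U i) 1), le_rfl, fun y => ?_, ?_⟩
  · rw [I_zero_of_le_left le_rfl]
    exact hε.le
  · apply (PLeaf.of_rl h3).sum
    rintro (i | j)
    · refine ⟨MvPolynomial.C (U0 i) + MvPolynomial.C (p.qs (QS.mk κ.rho)) * MvPolynomial.X (Sum.inl i), ?_, ?_⟩
      · apply (PK _).add_mem
        · apply C_mem
          refine (h1 i).trans (p.map_mono ?_)
          exact (dg_le_vd (fun i => κ.qs * U i) 1 i).trans le_sup_right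
        · apply (PK _).mul_mem (C_mem _) (X_mem _ _)
          rw [p.qs_dg]
          exact p.map_mono (κ.dg_rho _)
      · rw [map_add, map_mul, MvPolynomial.eval_C, MvPolynomial.eval_C, MvPolynomial.eval_X]
        exact h2 i
    · refine ⟨MvPolynomial.X (Sum.inr j), X_mem _ _, ?_⟩
      rw [MvPolynomial.eval_X]
      rfl

end

end Pool.Agent.Helper34.SLC
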