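import Pool.Agent.Helper34.SLC.Rev

/-! Exact entropy calculus: the content of a finite family of functions. -/

set_option autoImplicit false

namespace Pool.Agent.Helper34.SLC

open Finset Filter Topology Pool.Agent.Helper69.RK Pool.Agent.Helper31.EC Pool.Agent.Helper57.TA
open Pool.Agent.Helper95.RIG

noncomputable section

open Sp QS

variable {S : Sp}

open Classical in
/-- a power of two comparable to `min M 1`, cut off at `d` -/
def cs (d M : ℝ) : ℝ := if M < d then d else 2 ^ (-(⌊-Real.logb 2 (min M 1)⌋₊ : ℝ))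

theorem cs_neg {d M : ℝ} (h : M < d) : cs d M = d := by
  unfold cs
  rw [if_pos h]

theorem cs_aux {d M : ℝ} (hd : 0 < d) (h : d ≤ M) : min M 1 ≤ cs d M ∧ cs d M ≤ 2 * min M 1 ∧ cs d M ≤ 1 := by
  have hm : 0 < min M 1 := lt_min (lt_of_lt_of_le hd h) one_pos
  have h1 : cs d M = 2 ^ (-(⌊-Real.logb 2 (min M 1)⌋₊ : ℝ)) := by
    unfold cs
    rw [if_neg (not_lt.mpr h)]
  have h2 : 0 ≤ -Real.logb 2 (min M 1) := by
    rw [Left.nonneg_neg_iff]
    exact Real.logb_nonpos (by norm_num) hm.le (min_le_right _ _)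
  have h3 := Nat.floor_le h2
  have h4 := Nat.lt_floor_add_one (-Real.logb 2 (min M 1))
  have h5 : (2 : ℝ) ^ (Real.logb 2 (min M 1)) = min M 1 := Real.rpow_logb (by norm_num) (by norm_num) hm
  refine ⟨?_, ?_, ?_⟩
  · rw [h1]
    calc min M 1 = (2 : ℝ) ^ (Real.logb 2 (min M 1)) := h5.symm
      _ ≤ _ := Real.rpow_le_rpow_of_exponent_le (by norm_num) (by linarith)
  · rw [h1]
    calc (2 : ℝ) ^ (-(⌊-Real.logb 2 (min M 1)⌋₊ : ℝ)) ≤ 2 ^ (1 + Real.logb 2 (min M 1)) :=
          Real.rpow_le_rpow_of_exponent_le (by norm_num) (by linarith)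
      _ = 2 * min M 1 := by rw [Real.rpow_add (by norm_num), Real.rpow_one, h5]
  · rw [h1]
    exact Real.rpow_le_one_of_one_le_of_nonpos (by norm_num) (by
      rw [Left.neg_nonpos_iff]
      exact Nat.cast_nonneg _)

theorem cs_lo {d M : ℝ} (hd : 0 < d) (hd1 : d ≤ 1) : d ≤ cs d M := by
  rcases lt_or_ge M d with h | h
  · rw [cs_neg h]
  · exact (le_min h hd1).trans (cs_aux hd h).1

theorem cs_hi {d M : ℝ} (hd : 0 < d) (hd1 : d ≤ 1) : cs d M ≤ 1 := by
  rcases lt_or_ge M d with h | h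
  · rw [cs_neg h]; exact hd1
  · exact (cs_aux hd h).2.2

open Classical in
/-- values of the scale -/
def csv (n d : ℝ) : Finset ℝ := insert d ((range (⌊n⌋₊ + 1)).image fun i : ℕ => (2 : ℝ) ^ (-(i : ℝ)))

open Classical in
theorem csv_card {n d : ℝ} (hn : 0 ≤ n) : ((csv n d).card : ℝ) ≤ n + 2 := by
  have h1 : (csv n d).card ≤ ⌊n⌋₊ + 1 + 1 := by
    unfold csv
    refine (Finset.card_insert_le _ _).trans ?_
    have := Finset.card_image_le (s := range (⌊n⌋₊ + 1)) (f := fun i : ℕ => (2 : ℝ) ^ (-(i : ℝ)))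
    rw [card_range] at this
    omega
  have h2 : ((csv n d).card : ℝ) ≤ ((⌊n⌋₊ + 1 + 1 : ℕ) : ℝ) := by exact_mod_cast h1
  have h3 := Nat.floor_le hn
  push_cast at h2
  linarith

open Classical in
theorem cs_mem {n d M : ℝ} (hd : d = 2 ^ (-n)) (hn : 0 ≤ n) : cs d M ∈ csv n d := by
  have hd0 : 0 < d := by rw [hd]; positivity
  have hd1 : d ≤ 1 := by
    rw [hd]
    exact Real.rpow_le_one_of_one_le_of_nonpos (by norm_num) (by linarith)
  unfold csv
  rw [Finset.mem_insert]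
  rcases lt_or_ge M d with h | h
  · left
    exact cs_neg h
  · right
    rw [Finset.mem_image]
    refine ⟨⌊-Real.logb 2 (min M 1)⌋₊, ?_, ?_⟩
    · rw [Finset.mem_range, Nat.lt_succ_iff]
      apply Nat.floor_le_floor
      have h1 : d ≤ min M 1 := le_min h hd1
      have h2 : Real.logb 2 d ≤ Real.logb 2 (min M 1) := Real.logb_le_logb_of_le (by norm_num) hd0 h1
      have h3 : Real.logb 2 d = -n := by rw [hd, Real.logb_rpow (by norm_num) (by norm_num)]
      linarith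
    · unfold cs
      rw [if_neg (not_lt.mpr h)]

/-- the scale of a family of functions -/
def cscl {N : ℕ} (g : Fin N → TR S) : Scl S where
  f := fun k ω => cs (S.dl 1 k) (∑ i, |TR.ev (g i) k ω|)
  lo := fun k ω => cs_lo (S.dl_pos 1 k) (by
    have := S.dl_anti zero_le_one k
    rwa [S.dl_zero] at this)
  hi := fun k ω => cs_hi (S.dl_pos 1 k) (by
    have := S.dl_anti zero_le_one k
    rwa [S.dl_zero] at this)
  bdd := (few_of_card (α := fun _ => ℝ) _ (fun k => csv (S.F k).n (S.dl 1 k)) _ (Sub_n S)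
    (Eventually.of_forall fun k ω _ => cs_mem (by unfold Sp.dl; rw [one_mul]) (S.F k).pos.le)
    (Eventually.of_forall fun k => csv_card (S.F k).pos.le)).1
  few := (few_of_card (α := fun _ => ℝ) _ (fun k => csv (S.F k).n (S.dl 1 k)) _ (Sub_n S)
    (Eventually.of_forall fun k ω _ => cs_mem (by unfold Sp.dl; rw [one_mul]) (S.F k).pos.le)
    (Eventually.of_forall fun k => csv_card (S.F k).pos.le)).2

theorem cscl_f {N : ℕ} (g : Fin N → TR S) (k : ℕ) (ω : (S.F k).Ω) :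
    (cscl g).f k ω = cs (S.dl 1 k) (∑ i, |TR.ev (g i) k ω|) := rfl

open Classical in
/-- primitive part -/
def cpr {N : ℕ} (g : Fin N → TR S) (i0 i : Fin N) : TR S :=
  ⟨fun k ω => if ∑ i, |TR.ev (g i) k ω| < S.dl 1 k then (if i = i0 then 1 else 0) else
    TR.ev (g i) k ω / (cscl g).f k ω, by
    obtain ⟨K, hK, h⟩ := (TR.vec g).bd
    refine ⟨_, (S.Sub_const zero_le_one).add ((S.Sub_const (Nat.cast_nonneg N)).mul hK), ?_⟩
    filter_upwards [h, hK.1] with k a c ω hω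
    have a1 : ∀ i, |TR.ev (g i) k ω| ≤ K k := fun i => a ω hω i
    have hNK : 0 ≤ (N : ℝ) * K k := mul_nonneg (Nat.cast_nonneg N) c
    split_ifs with h1 h2
    · rw [abs_one]; linarith
    · rw [abs_zero]; linarith
    · set M := ∑ i, |TR.ev (g i) k ω| with hM
      have hd := S.dl_pos 1 k
      have h3 := cs_aux hd (not_lt.mp h1)
      have hM0 : 0 < M := lt_of_lt_of_le hd (not_lt.mp h1)
      have h4 : |TR.ev (g i) k ω| ≤ M :=
        Finset.single_le_sum (f := fun i => |TR.ev (g i) k ω|) (fun j _ => abs_nonneg _) (mem_univ i)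
      have h5 : M ≤ N * K k := by
        calc M ≤ ∑ _i : Fin N, K k := Finset.sum_le_sum fun i _ => a1 i
          _ = N * K k := by simp
      rw [abs_div, abs_of_pos ((cscl g).pos k ω), div_le_iff₀ ((cscl g).pos k ω), cscl_f, ← hM]
      rcases le_total M 1 with h6 | h6
      · rw [min_eq_left h6] at h3
        nlinarith [h3.1, hNK]
      · rw [min_eq_right h6] at h3
        nlinarith [h3.1, hNK]⟩

open Classical in
theorem ev_cpr {N : ℕ} (g : Fin N → TR S) (i0 i : Fin N) (k : ℕ) (ω : (S.F k).Ω) :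
    TR.ev (cpr g i0 i) k ω = if ∑ i, |TR.ev (g i) k ω| < S.dl 1 k then (if i = i0 then 1 else 0) else
      TR.ev (g i) k ω / (cscl g).f k ω := rfl

theorem cpr_mul {N : ℕ} (g : Fin N → TR S) (i0 i : Fin N) : QS.mk (g i) = (cscl g).qs * QS.mk (cpr g i0 i) := by
  unfold Scl.qs
  rw [← map_mul, mk_eq]
  refine ⟨fun _ _ => True, fun _ => 2, Typ_true, S.Sub_const (by norm_num), Eventually.of_forall fun k ω _ _ => ?_⟩
  have hd := S.dl_pos 1 k
  rw [TR.ev_mul, Scl.ev_tr, ev_cpr]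
  have h4 : |TR.ev (g i) k ω| ≤ ∑ i, |TR.ev (g i) k ω| :=
    Finset.single_le_sum (f := fun i => |TR.ev (g i) k ω|) (fun j _ => abs_nonneg _) (mem_univ i)
  split_ifs with h1 h2
  · rw [cscl_f, cs_neg h1, mul_one]
    have h5 := abs_le.mp (h4.trans h1.le)
    rw [abs_le]
    constructor <;> linarith [h5.1, h5.2]
  · rw [mul_zero, sub_zero]
    linarith
  · rw [mul_div_cancel₀ _ ((cscl g).pos k ω).ne', sub_self, abs_zero]
    positivity

theorem cpr_unit {N : ℕ} (g : Fin N → TR S) (i0 : Fin N) : IsUnit (∑ i, QS.mk (cpr g i0 i) ^ 2) := by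
  have h1 : ∑ i, QS.mk (cpr g i0 i) ^ 2 = QS.mk (∑ i, cpr g i0 i ^ 2) := by
    rw [map_sum]
    exact Finset.sum_congr rfl fun i _ => (map_pow _ _ _).symm
  have hN : (1 : ℝ) ≤ N := by
    have := i0.pos
    exact_mod_cast this
  rw [h1, isUnit_mk]
  refine ⟨fun _ => 4 * N, S.Sub_const (by positivity), ?_⟩
  apply Typ_true.mono
  refine Eventually.of_forall fun k ω _ _ => ?_
  have e1 : TR.ev (∑ i, cpr g i0 i ^ 2) k ω = ∑ i, TR.ev (cpr g i0 i) k ω ^ 2 := by
    rw [← TR.evh_apply, map_sum]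
    exact Finset.sum_congr rfl fun i _ => by rw [map_pow, TR.evh_apply]
  have e2 : 0 ≤ ∑ i, TR.ev (cpr g i0 i) k ω ^ 2 := Finset.sum_nonneg fun i _ => sq_nonneg _
  rw [e1, abs_of_nonneg e2]
  set M := ∑ i, |TR.ev (g i) k ω| with hM
  have hd := S.dl_pos 1 k
  rcases lt_or_ge M (S.dl 1 k) with h2 | h2
  · have e3 : TR.ev (cpr g i0 i0) k ω = 1 := by
      rw [ev_cpr, if_pos h2, if_pos rfl]
    have e4 : TR.ev (cpr g i0 i0) k ω ^ 2 ≤ ∑ i, TR.ev (cpr g i0 i) k ω ^ 2 :=
      Finset.single_le_sum (f := fun i => TR.ev (cpr g i0 i) k ω ^ 2) (fun j _ => sq_nonneg _) (mem_univ i0)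
    rw [e3, one_pow] at e4
    nlinarith
  · have e3 : ∀ i, TR.ev (cpr g i0 i) k ω = TR.ev (g i) k ω / (cscl g).f k ω := by
      intro i
      rw [ev_cpr, if_neg (not_lt.mpr h2)]
    have hκ := (cscl g).pos k ω
    have e5 : M = (∑ i, |TR.ev (cpr g i0 i) k ω|) * (cscl g).f k ω := by
      rw [Finset.sum_mul, hM]
      apply Finset.sum_congr rfl
      intro i _
      rw [e3, abs_div, abs_of_pos hκ, div_mul_cancel₀ _ hκ.ne']
    have e6 := (cs_aux hd h2).2.1
    rw [hM, ← cscl_f, ← hM] at e6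
    have e7 : (cscl g).f k ω ≤ 2 * M := e6.trans (by
      have := min_le_left M 1
      linarith)
    set R := ∑ i, |TR.ev (cpr g i0 i) k ω| with hR
    have e8 : 1 ≤ 2 * R := by
      have e9 : (cscl g).f k ω * 1 ≤ (cscl g).f k ω * (2 * R) := by
        rw [mul_one]
        calc (cscl g).f k ω ≤ 2 * M := e7
          _ = _ := by rw [e5]; ring
      exact le_of_mul_le_mul_left e9 hκ
    have e10 : R ^ 2 ≤ N * ∑ i, TR.ev (cpr g i0 i) k ω ^ 2 := by
      have := sq_sum_le_card_mul_sum_sq (s := (univ : Finset (Fin N))) (f := fun i => |TR.ev (cpr g i0 i) k ω|)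
      simp only [sq_abs, card_univ, Fintype.card_fin] at this
      exact this
    nlinarith

/-- CONTENT of a finite family -/
theorem exists_contentF {N : ℕ} (c : Fin N → QS S) (i0 : Fin N) :
    ∃ (κ : Scl S) (c' : Fin N → QS S), (∀ i, dg (c' i) 1 ≤ vd c 1) ∧ (∀ i, c i = κ.qs * c' i) ∧
      IsUnit (∑ i, c' i ^ 2) := by
  set u : Fin N → TR S := fun i => rep (c i) with hu
  have huc : ∀ i, QS.mk (u i) = c i := fun i => mk_rep (c i)
  set g : Fin N → TR S := fun i => rnd (u i) with hg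
  refine ⟨cscl g, fun i => QS.mk (cpr g i0 i), fun i => ?_, fun i => ?_, cpr_unit g i0⟩
  · have h1 : vd c 1 = io ((TR.vec u).cellv 1) := by
      show _ = (TR.vec u).dg 1
      rw [TR.vec_dg_eq]
      unfold vd
      congr 1
      funext i
      rw [← huc i, dg_mk _ le_rfl]
    rw [h1, dg_mk _ le_rfl]
    apply dg_le_io_fun ((TR.vec u).bdd 1)
    refine Eventually.of_forall fun k ω ω' _ _ e => ?_
    have h2 : ∀ i, TR.ev (g i) k ω = TR.ev (g i) k ω' := by
      intro i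
      have h3 : ⌊TR.ev (u i) k ω / S.dl 1 k⌋ = ⌊TR.ev (u i) k ω' / S.dl 1 k⌋ := congrFun e i
      rw [hg]
      beta_reduce
      rw [ev_rnd, ev_rnd, h3]
    have h4 : ∑ i, |TR.ev (g i) k ω| = ∑ i, |TR.ev (g i) k ω'| := Finset.sum_congr rfl fun i _ => by rw [h2]
    rw [ev_cpr, ev_cpr, cscl_f, cscl_f, h4, h2 i]
  · rw [← huc i, ← mk_rnd]
    exact cpr_mul g i0 i

/-- CONTENT of a finite family -/
theorem exists_content {ι : Type} [Fintype ι] (c : ι → QS S) (i0 : ι) :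
    ∃ (κ : Scl S) (c' : ι → QS S), (∀ i, dg (c' i) 1 ≤ vd c 1) ∧ (∀ i, c i = κ.qs * c' i) ∧
      IsUnit (∑ i, c' i ^ 2) := by
  classical
  set e := Fintype.equivFin ι with he
  obtain ⟨κ, c', h1, h2, h3⟩ := exists_contentF (fun j => c (e.symm j)) (e i0)
  refine ⟨κ, fun i => c' (e i), fun i => ?_, fun i => ?_, ?_⟩
  · have h4 : vd (fun j => c (e.symm j)) 1 = vd c 1 := vd_equiv e.symm c 1
    rw [← h4]
    exact h1 _
  · have h5 := h2 (e i)
    rwa [Equiv.symm_apply_apply] at h5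
  · have h6 : ∑ i, c' (e i) ^ 2 = ∑ j, c' j ^ 2 := Equiv.sum_comp e (fun j => c' j ^ 2)
    rw [h6]
    exact h3

end

end Pool.Agent.Helper34.SLC
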