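import Pool.Agent.Helper34.SLC.Cont

/-! Exact entropy calculus: content of polynomials, Taylor formula, nilpotent inverse. -/

set_option autoImplicit false

namespace Pool.Agent.Helper34.SLC

open Finset Filter Topology Pool.Agent.Helper69.RK Pool.Agent.Helper31.EC Pool.Agent.Helper57.TA
open Pool.Agent.Helper95.RIG

noncomputable section

open Sp QS

variable {S : Sp}

/-- CONTENT of a polynomial -/
theorem exists_cont {n : ℕ} {A : S.L} {φ : MvPolynomial (Fin (n + 1)) (QS S)} (hφ : φ ∈ PK A) :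
    ∃ (κ : Scl S) (φ' : MvPolynomial (Fin (n + 1)) (QS S)) (T : Finset (Fin (n + 1) →₀ ℕ)), φ' ∈ PK A ∧
      φ = MvPolynomial.C (φ.coeff 0) + MvPolynomial.C κ.qs * φ' ∧ 0 ∉ T ∧ IsUnit (∑ m ∈ T, φ'.coeff m ^ 2) := by
  classical
  set T : Finset (Fin (n + 1) →₀ ℕ) := insert (Finsupp.single 0 1) (φ.support.erase 0) with hT
  have h0 : (0 : Fin (n + 1) →₀ ℕ) ∉ T := by
    rw [hT, Finset.mem_insert]
    rintro (h | h)
    · have := DFunLike.congr_fun h 0
      simp at this
    · exact absurd rfl (Finset.mem_erase.mp h).1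
  obtain ⟨κ, c', h1, h2, h3⟩ := exists_content (ι := {m // m ∈ T}) (fun m => φ.coeff m.1)
    ⟨Finsupp.single 0 1, Finset.mem_insert_self _ _⟩
  have hco : ∀ m, (∑ i : {m // m ∈ T}, MvPolynomial.monomial i.1 (c' i)).coeff m =
      if h : m ∈ T then c' ⟨m, h⟩ else 0 := by
    intro m
    rw [MvPolynomial.coeff_sum]
    simp only [MvPolynomial.coeff_monomial]
    split_ifs with h
    · rw [Finset.sum_eq_single ⟨m, h⟩]
      · rw [if_pos rfl]
      · intro i _ hi
        rw [if_neg fun hc => hi (Subtype.ext hc)]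
      · intro hc
        exact absurd (Finset.mem_univ _) hc
    · apply Finset.sum_eq_zero
      intro i _
      rw [if_neg fun hc : i.1 = m => h (hc ▸ i.2)]
  refine ⟨κ, ∑ i : {m // m ∈ T}, MvPolynomial.monomial i.1 (c' i), T, ?_, ?_, h0, ?_⟩
  · apply (PK A).sum_mem
    intro i _
    apply monomial_mem
    refine (h1 i).trans ?_
    rw [vd_le]
    intro j
    exact hφ j.1
  · ext m
    rw [MvPolynomial.coeff_add, MvPolynomial.coeff_C_mul, hco, MvPolynomial.coeff_C]
    by_cases hm : m ∈ T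
    · have hm0 : ¬ 0 = m := fun hc => h0 (by rw [hc]; exact hm)
      rw [if_neg hm0, dif_pos hm, zero_add]
      exact h2 ⟨m, hm⟩
    · rw [dif_neg hm, mul_zero, add_zero]
      by_cases hm0 : 0 = m
      · rw [if_pos hm0, hm0]
      · rw [if_neg hm0]
        by_contra hc
        apply hm
        rw [hT, Finset.mem_insert]
        right
        rw [Finset.mem_erase]
        exact ⟨fun h => hm0 h.symm, MvPolynomial.mem_support_iff.mpr hc⟩
  · have e1 : ∑ m ∈ T, (∑ i : {m // m ∈ T}, MvPolynomial.monomial i.1 (c' i)).coeff m ^ 2 = ∑ i, c' i ^ 2 := by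
      rw [← Finset.sum_coe_sort T]
      apply Finset.sum_congr rfl
      intro i _
      rw [hco, dif_pos i.2]
    rw [e1]
    exact h3

/-- summands of small sums of squares are small -/
theorem mem_of_sq_sum {ι : Type} [Fintype ι] {v : ι → QS S} {δ : ℝ} (hδ : δ ≤ 1)
    (h : ∑ i, v i ^ 2 ∈ Id S δ) (i : ι) : v i ∈ Id S (δ / 2) := by
  rcases le_total δ 0 with h0 | h0
  · exact mem_Id_nonpos (by linarith)
  have hu : ∀ i, QS.mk (rep (v i)) = v i := fun i => mk_rep (v i)
  have h1 : QS.mk (∑ i, rep (v i) ^ 2) ∈ Id S δ := by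
    rw [map_sum]
    have e : ∑ i, QS.mk (rep (v i) ^ 2) = ∑ i, v i ^ 2 := Finset.sum_congr rfl fun i _ => by rw [map_pow, hu]
    rw [e]
    exact h
  rw [mem_Id_iff, min_eq_left hδ] at h1
  rw [← hu i, mem_Id_iff, min_eq_left (by linarith)]
  obtain ⟨E, K, hE, hK, hh⟩ := h1
  refine ⟨E, fun k => K k + 1, hE, hK.add (S.Sub_const zero_le_one), ?_⟩
  filter_upwards [hh, hK.1] with k hk hK0 ω a b
  have e1 := hk ω a b
  rw [TR.ev_zero, sub_zero] at e1 ⊢
  have e2 : TR.ev (∑ i, rep (v i) ^ 2) k ω = ∑ i, TR.ev (rep (v i)) k ω ^ 2 := by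
    rw [← TR.evh_apply, map_sum]
    exact Finset.sum_congr rfl fun i _ => by rw [map_pow, TR.evh_apply]
  have e3 : TR.ev (rep (v i)) k ω ^ 2 ≤ ∑ i, TR.ev (rep (v i)) k ω ^ 2 :=
    Finset.single_le_sum (f := fun i => TR.ev (rep (v i)) k ω ^ 2) (fun j _ => sq_nonneg _) (mem_univ i)
  rw [e2] at e1
  have e4 : TR.ev (rep (v i)) k ω ^ 2 ≤ K k * S.dl δ k := e3.trans ((le_abs_self _).trans e1)
  have e5 : S.dl δ k = S.dl (δ / 2) k * S.dl (δ / 2) k := by
    rw [← S.dl_add]; congr 1; ring
  have hd := S.dl_pos (δ / 2) k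
  apply abs_le_of_sq_le_sq _ (by positivity)
  rw [e5] at e4
  nlinarith [mul_pos hd hd]

/-- the gradient of a polynomial without common factor of the coefficients at a real point -/
theorem isUnit_grad {n : ℕ} {A : S.L} {Y : Fin n → QS S} (hY : Rl Y A) {φ : MvPolynomial (Fin n) (QS S)}
    (hφ : φ ∈ PK A) {T : Finset (Fin n →₀ ℕ)} (hT : 0 ∉ T) (hu : IsUnit (∑ m ∈ T, φ.coeff m ^ 2)) :
    IsUnit (∑ i, MvPolynomial.eval Y (MvPolynomial.pderiv i φ) ^ 2) := by
  by_contra hc
  obtain ⟨E, hE, δ, hδ, hδ1, h1⟩ := exists_small hc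
  rw [map_sum] at h1
  simp only [map_pow] at h1
  have h2 : ∀ i, QS.rest E hE (MvPolynomial.eval Y (MvPolynomial.pderiv i φ)) ∈ Id (S.rest E) (δ / 2) :=
    fun i => mem_of_sq_sum hδ1 h1 i
  have h3 : ∀ i m, QS.rest E hE ((MvPolynomial.pderiv i φ).coeff m) ∈ Id (S.rest E) (δ / 2) := by
    intro i m
    have e1 := h2 i
    rw [eval_hom] at e1
    have e2 := mv_small0 n (restL E hE A) (fun i => QS.rest E hE (Y i))
      (MvPolynomial.map (QS.rest E hE) (MvPolynomial.pderiv i φ)) one_pos le_rfl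
      (Rl_iff_Rt.mp (hY.rest E hE)) (Pool.Agent.Helper95.RIG.rest_PK E hE (pd_PK hφ i)) (by linarith) e1 m
    rwa [MvPolynomial.coeff_map] at e2
  have h4 : ∀ m, m ≠ 0 → QS.rest E hE (φ.coeff m) ∈ Id (S.rest E) (δ / 2) := by
    intro m hm
    obtain ⟨i, hi⟩ : ∃ i, m i ≠ 0 := by
      by_contra hcon
      push Not at hcon
      exact hm (Finsupp.ext hcon)
    have e1 := h3 i (m - Finsupp.single i 1)
    have e2 : m - Finsupp.single i 1 + Finsupp.single i 1 = m := by
      apply tsub_add_cancel_of_le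
      rw [Finsupp.single_le_iff]
      omega
    rw [MvPolynomial.coeff_pderiv, e2] at e1
    have e3 : (((m - Finsupp.single i 1 : Fin n →₀ ℕ) i : ℕ) : QS S) + 1 = ((m i : ℕ) : QS S) := by
      rw [Finsupp.tsub_apply, Finsupp.single_eq_same]
      have h6 : m i - 1 + 1 = m i := by omega
      calc ((m i - 1 : ℕ) : QS S) + 1 = ((m i - 1 + 1 : ℕ) : QS S) := by push_cast; ring
        _ = _ := by rw [h6]
    rw [e3, mul_comm, map_mul, map_natCast] at e1
    exact mem_Id_of_unit_mul (isUnit_nat hi) e1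
  have h5 : QS.rest E hE (∑ m ∈ T, φ.coeff m ^ 2) ∈ Id (S.rest E) (δ / 2) := by
    rw [map_sum]
    apply Ideal.sum_mem
    intro m hm
    rw [map_pow, sq]
    exact Ideal.mul_mem_left _ _ (h4 m fun hc => hT (by rw [← hc]; exact hm))
  exact isUnit_notMem_Id (by linarith) (hu.map (QS.rest E hE)) h5

/-- a combination with independent real coefficients of functions without common factor -/
theorem isUnit_comb {n : ℕ} {A : S.L} {m : Fin n → QS S} (hm : Rl m A) {b : Fin (n + 1) → QS S}
    (hb : ∀ i, dg (b i) 1 ≤ A) (hu : IsUnit (∑ i, b i ^ 2)) : IsUnit (b 0 + ∑ i, m i * b i.succ) := by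
  classical
  by_contra hc
  obtain ⟨E, hE, δ, hδ, hδ1, h1⟩ := exists_small hc
  set P : MvPolynomial (Fin n) (QS S) := MvPolynomial.C (b 0) + ∑ i : Fin n, MvPolynomial.C (b i.succ) * MvPolynomial.X i
    with hP
  have hPK : P ∈ PK A := by
    apply (PK A).add_mem (C_mem (hb 0))
    apply (PK A).sum_mem
    intro i _
    exact (PK A).mul_mem (C_mem (hb _)) (X_mem _ _)
  have hev : MvPolynomial.eval m P = b 0 + ∑ i, m i * b i.succ := by
    rw [hP, map_add, map_sum, MvPolynomial.eval_C]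
    congr 1
    apply Finset.sum_congr rfl
    intro i _
    rw [map_mul, MvPolynomial.eval_C, MvPolynomial.eval_X, mul_comm]
  have h3 : ∀ a, QS.rest E hE (P.coeff a) ∈ Id (S.rest E) δ := by
    intro a
    rw [← hev, eval_hom] at h1
    have e2 := mv_small0 n (restL E hE A) (fun i => QS.rest E hE (m i)) (MvPolynomial.map (QS.rest E hE) P) one_pos
      le_rfl (Rl_iff_Rt.mp (hm.rest E hE)) (Pool.Agent.Helper95.RIG.rest_PK E hE hPK) hδ1 h1 a
    rwa [MvPolynomial.coeff_map] at e2
  have hco : ∀ a, P.coeff a = (if 0 = a then b 0 else 0) + ∑ i : Fin n, if Finsupp.single i 1 = a then b i.succ else 0 := by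
    intro a
    rw [hP, MvPolynomial.coeff_add, MvPolynomial.coeff_C, MvPolynomial.coeff_sum]
    congr 1
    apply Finset.sum_congr rfl
    intro i _
    rw [MvPolynomial.coeff_C_mul, MvPolynomial.coeff_X, mul_ite, mul_one, mul_zero]
  have h4 : ∀ i, QS.rest E hE (b i) ∈ Id (S.rest E) δ := by
    intro i
    induction i using Fin.cases with
    | zero =>
      have e1 := h3 0
      rw [hco, if_pos rfl, Finset.sum_eq_zero, add_zero] at e1
      · exact e1
      · intro i _
        rw [if_neg]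
        intro hc
        have := DFunLike.congr_fun hc i
        simp at this
    | succ i =>
      have e1 := h3 (Finsupp.single i 1)
      rw [hco, if_neg, zero_add, Finset.sum_eq_single i, if_pos rfl] at e1
      · exact e1
      · intro j _ hj
        rw [if_neg]
        intro hc
        have := DFunLike.congr_fun hc i
        rw [Finsupp.single_eq_of_ne (Ne.symm hj), Finsupp.single_eq_same] at this
        exact zero_ne_one this
      · intro hc
        exact absurd (Finset.mem_univ _) hc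
      · intro hc
        have := DFunLike.congr_fun hc i
        rw [Finsupp.zero_apply, Finsupp.single_eq_same] at this
        exact zero_ne_one this
  have h5 : QS.rest E hE (∑ i, b i ^ 2) ∈ Id (S.rest E) δ := by
    rw [map_sum]
    apply Ideal.sum_mem
    intro i _
    rw [map_pow, sq]
    exact Ideal.mul_mem_left _ _ (h4 i)
  exact isUnit_notMem_Id hδ (hu.map (QS.rest E hE)) h5

/-! ### Taylor formula -/

/-- polynomials with a Taylor formula of second order -/
def Tp {ι : Type} [Fintype ι] (A : S.L) (a : ι → QS S) (σ : QS S) (P : MvPolynomial ι (QS S)) : Prop :=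
  P ∈ PK A ∧ ∃ ψ : MvPolynomial ι (QS S), ψ ∈ PK A ∧ ∀ w : ι → QS S,
    MvPolynomial.eval (fun i => a i + σ * w i) P = MvPolynomial.eval a P +
      σ * (∑ i, MvPolynomial.eval a (MvPolynomial.pderiv i P) * w i + σ * MvPolynomial.eval w ψ)

section

variable {ι : Type} [Fintype ι] {A : S.L} {a : ι → QS S} {σ : QS S}

theorem Tp.C {c : QS S} (hc : dg c 1 ≤ A) : Tp A a σ (MvPolynomial.C c) := by
  refine ⟨C_mem hc, 0, (PK A).zero_mem, fun w => ?_⟩
  simp

theorem Tp.X (i : ι) : Tp A a σ (MvPolynomial.X i) := by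
  classical
  refine ⟨X_mem A i, 0, (PK A).zero_mem, fun w => ?_⟩
  rw [MvPolynomial.eval_X, MvPolynomial.eval_X, map_zero, mul_zero, add_zero]
  congr 2
  rw [Finset.sum_eq_single i]
  · rw [MvPolynomial.pderiv_X, Pi.single_eq_same, map_one, one_mul]
  · intro j _ hj
    rw [MvPolynomial.pderiv_X, Pi.single_eq_of_ne (Ne.symm hj), map_zero, zero_mul]
  · intro hc
    exact absurd (Finset.mem_univ _) hc

theorem Tp.add {P Q : MvPolynomial ι (QS S)} (hP : Tp A a σ P) (hQ : Tp A a σ Q) : Tp A a σ (P + Q) := by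
  obtain ⟨hP0, ψ, hψ, h⟩ := hP
  obtain ⟨hQ0, ψ', hψ', h'⟩ := hQ
  refine ⟨(PK A).add_mem hP0 hQ0, ψ + ψ', (PK A).add_mem hψ hψ', fun w => ?_⟩
  have e1 : ∑ i, MvPolynomial.eval a (MvPolynomial.pderiv i (P + Q)) * w i =
      ∑ i, MvPolynomial.eval a (MvPolynomial.pderiv i P) * w i +
        ∑ i, MvPolynomial.eval a (MvPolynomial.pderiv i Q) * w i := by
    rw [← Finset.sum_add_distrib]
    apply Finset.sum_congr rfl
    intro i _
    rw [map_add, map_add, add_mul]
  rw [map_add, map_add, map_add, h w, h' w, e1]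
  ring

theorem Tp.mul (ha : ∀ i, dg (a i) 1 ≤ A) (hσ : dg σ 1 ≤ A) {P Q : MvPolynomial ι (QS S)} (hP : Tp A a σ P)
    (hQ : Tp A a σ Q) : Tp A a σ (P * Q) := by
  obtain ⟨hP0, ψ, hψ, h⟩ := hP
  obtain ⟨hQ0, ψ', hψ', h'⟩ := hQ
  set l : MvPolynomial ι (QS S) → MvPolynomial ι (QS S) := fun P =>
    ∑ i, MvPolynomial.C (MvPolynomial.eval a (MvPolynomial.pderiv i P)) * MvPolynomial.X i with hl
  have hlK : ∀ P ∈ PK A, l P ∈ PK A := by
    intro P hP
    apply (PK A).sum_mem
    intro i _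
    exact (PK A).mul_mem (C_mem (eval_mem (pd_PK hP i) a le_rfl ha)) (X_mem _ _)
  have hle : ∀ P w, MvPolynomial.eval w (l P) = ∑ i, MvPolynomial.eval a (MvPolynomial.pderiv i P) * w i := by
    intro P w
    rw [hl]
    beta_reduce
    rw [map_sum]
    apply Finset.sum_congr rfl
    intro i _
    rw [map_mul, MvPolynomial.eval_C, MvPolynomial.eval_X]
  refine ⟨(PK A).mul_mem hP0 hQ0, MvPolynomial.C (MvPolynomial.eval a P) * ψ' + MvPolynomial.C (MvPolynomial.eval a Q) * ψ +
    (l P + MvPolynomial.C σ * ψ) * (l Q + MvPolynomial.C σ * ψ'), ?_, fun w => ?_⟩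
  · apply (PK A).add_mem
    · exact (PK A).add_mem ((PK A).mul_mem (C_mem (eval_mem hP0 a le_rfl ha)) hψ')
        ((PK A).mul_mem (C_mem (eval_mem hQ0 a le_rfl ha)) hψ)
    · exact (PK A).mul_mem ((PK A).add_mem (hlK P hP0) ((PK A).mul_mem (C_mem hσ) hψ))
        ((PK A).add_mem (hlK Q hQ0) ((PK A).mul_mem (C_mem hσ) hψ'))
  · have e1 : ∑ i, MvPolynomial.eval a (MvPolynomial.pderiv i (P * Q)) * w i =
        MvPolynomial.eval a Q * ∑ i, MvPolynomial.eval a (MvPolynomial.pderiv i P) * w i +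
          MvPolynomial.eval a P * ∑ i, MvPolynomial.eval a (MvPolynomial.pderiv i Q) * w i := by
      rw [Finset.mul_sum, Finset.mul_sum, ← Finset.sum_add_distrib]
      apply Finset.sum_congr rfl
      intro i _
      rw [MvPolynomial.pderiv_mul, map_add, map_mul, map_mul]
      ring
    rw [map_mul, map_mul, h w, h' w, e1]
    simp only [map_add, map_mul, MvPolynomial.eval_C, hle]
    ring

theorem Tp.one (A : S.L) (a : ι → QS S) (σ : QS S) : Tp A a σ 1 := by
  rw [← map_one MvPolynomial.C]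
  exact Tp.C (Kn S 1 le_rfl A).one_mem

theorem Tp.pow (ha : ∀ i, dg (a i) 1 ≤ A) (hσ : dg σ 1 ≤ A) {P : MvPolynomial ι (QS S)} (hP : Tp A a σ P) (n : ℕ) :
    Tp A a σ (P ^ n) := by
  induction n with
  | zero => rw [pow_zero]; exact Tp.one A a σ
  | succ n ih => rw [pow_succ]; exact ih.mul ha hσ hP

/-- TAYLOR FORMULA -/
theorem taylor (ha : ∀ i, dg (a i) 1 ≤ A) (hσ : dg σ 1 ≤ A) {P : MvPolynomial ι (QS S)} (hP : P ∈ PK A) :
    Tp A a σ P := by
  rw [P.as_sum]
  apply Finset.sum_induction _ (Tp A a σ) (fun _ _ h h' => h.add h')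
  · rw [← map_zero MvPolynomial.C]
    exact Tp.C (Kn S 1 le_rfl A).zero_mem
  · intro m _
    rw [MvPolynomial.monomial_eq]
    apply Tp.mul ha hσ (Tp.C (hP m))
    unfold Finsupp.prod
    apply Finset.prod_induction _ (Tp A a σ) (fun _ _ h h' => h.mul ha hσ h') (Tp.one A a σ)
    intro i _
    exact (Tp.X i).pow ha hσ _

end

/-! ### inverse -/

theorem bind_PK {ι κ : Type} {A : S.L} {L : ι → MvPolynomial κ (QS S)} (hL : ∀ i, L i ∈ PK A)
    {P : MvPolynomial ι (QS S)} (hP : P ∈ PK A) : MvPolynomial.bind₁ L P ∈ PK A := by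
  rw [MvPolynomial.bind₁, MvPolynomial.aeval_def, MvPolynomial.eval₂_eq]
  apply Subring.sum_mem
  intro m _
  apply Subring.mul_mem
  · exact C_mem (hP m)
  · exact Subring.prod_mem _ fun i _ => Subring.pow_mem _ (hL i) _

theorem eval_bind {R ι κ : Type*} [CommRing R] (L : ι → MvPolynomial κ R) (P : MvPolynomial ι R) (x : κ → R) :
    MvPolynomial.eval x (MvPolynomial.bind₁ L P) = MvPolynomial.eval (fun i => MvPolynomial.eval x (L i)) P := by
  have h3 : (MvPolynomial.eval x).comp (MvPolynomial.bind₁ L : MvPolynomial ι R →+* _) =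
      MvPolynomial.eval (fun i => MvPolynomial.eval x (L i)) := by
    apply MvPolynomial.ringHom_ext
    · intro r
      simp
    · intro i
      simp
  exact RingHom.congr_fun h3 P

/-- NILPOTENT INVERSE -/
theorem exists_inv {n : ℕ} {A : S.L} {g z U σ : QS S} {T : Fin n → QS S} {L : MvPolynomial (Fin n) (QS S)}
    {ψ : MvPolynomial (Fin (n + 1)) (QS S)} (hg : IsUnit g) (hgA : dg g 1 ≤ A) (hσ : dg σ 1 ≤ A)
    (hσn : IsNilpotent σ) (hL : L ∈ PK A) (hψ : ψ ∈ PK A)
    (hU : U = g * z + MvPolynomial.eval T L + σ * MvPolynomial.eval (Fin.cons z T : Fin (n + 1) → QS S) ψ) :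
    ∃ G : MvPolynomial (Fin (n + 1)) (QS S), G ∈ PK A ∧
      z = MvPolynomial.eval (Fin.cons U T : Fin (n + 1) → QS S) G := by
  obtain ⟨g', hg'⟩ := hg.exists_left_inv
  have hg'A : dg g' 1 ≤ A := (dg_inv_le hg' le_rfl).trans hgA
  have key : ∀ r : ℕ, ∃ G : MvPolynomial (Fin (n + 1)) (QS S), G ∈ PK A ∧
      ∃ e, z - MvPolynomial.eval (Fin.cons U T : Fin (n + 1) → QS S) G = σ ^ r * e := by
    intro r
    induction r with
    | zero => exact ⟨0, (PK A).zero_mem, z, by rw [map_zero, sub_zero, pow_zero, one_mul]⟩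
    | succ r ih =>
      obtain ⟨G, hG, e, he⟩ := ih
      set M : Fin (n + 1) → MvPolynomial (Fin (n + 1)) (QS S) :=
        Fin.cons G (fun i : Fin n => MvPolynomial.X i.succ) with hM
      have hMK : ∀ i, M i ∈ PK A := by
        intro i
        induction i using Fin.cases with
        | zero => exact hG
        | succ i => exact X_mem _ _
      set γ := MvPolynomial.eval (Fin.cons U T : Fin (n + 1) → QS S) G with hγ
      have hMe : (fun i => MvPolynomial.eval (Fin.cons U T : Fin (n + 1) → QS S) (M i)) =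
          (Fin.cons γ T : Fin (n + 1) → QS S) := by
        funext i
        induction i using Fin.cases with
        | zero => rfl
        | succ i =>
          rw [hM, Fin.cons_succ, Fin.cons_succ, MvPolynomial.eval_X, Fin.cons_succ]
      refine ⟨MvPolynomial.C g' * (MvPolynomial.X 0 - MvPolynomial.rename Fin.succ L -
        MvPolynomial.C σ * MvPolynomial.bind₁ M ψ), ?_, ?_⟩
      · apply (PK A).mul_mem (C_mem hg'A)
        apply (PK A).sub_mem
        · exact (PK A).sub_mem (X_mem _ _) (rename_mem _ hL)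
        · exact (PK A).mul_mem (C_mem hσ) (bind_PK hMK hψ)
      · have h1 : MvPolynomial.eval (Fin.cons z T : Fin (n + 1) → QS S) ψ -
            MvPolynomial.eval (Fin.cons γ T : Fin (n + 1) → QS S) ψ ∈ Ideal.span {σ ^ r} := by
          apply eval_sub_mem
          intro i
          induction i using Fin.cases with
          | zero =>
            rw [Fin.cons_zero, Fin.cons_zero, he]
            exact Ideal.mul_mem_right _ _ (Ideal.mem_span_singleton_self _)
          | succ i =>
            rw [Fin.cons_succ, Fin.cons_succ, sub_self]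
            exact Ideal.zero_mem _
        obtain ⟨e', he'⟩ := Ideal.mem_span_singleton'.mp h1
        refine ⟨-(g' * e'), ?_⟩
        have h2 : MvPolynomial.eval (Fin.cons U T : Fin (n + 1) → QS S) (MvPolynomial.C g' * (MvPolynomial.X 0 -
            MvPolynomial.rename Fin.succ L - MvPolynomial.C σ * MvPolynomial.bind₁ M ψ)) =
            g' * (U - MvPolynomial.eval T L - σ * MvPolynomial.eval (Fin.cons γ T : Fin (n + 1) → QS S) ψ) := by
          rw [map_mul, map_sub, map_sub, map_mul, MvPolynomial.eval_C, MvPolynomial.eval_C, MvPolynomial.eval_X,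
            eval_bind, hMe, MvPolynomial.eval_rename, Fin.cons_zero]
          congr 1
        rw [h2, hU, pow_succ]
        linear_combination (-z) * hg' + (g' * σ) * he'
  obtain ⟨N, hN⟩ := hσn
  obtain ⟨G, hG, e, he⟩ := key N
  rw [hN, zero_mul, sub_eq_zero] at he
  exact ⟨G, hG, he⟩

end

end Pool.Agent.Helper34.SLC
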